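import Pool.Agent.L7h13.XI.Up

/-!
# No zeros far to the right
-/

set_option autoImplicit false

open Complex Set Metric MeasureTheory

namespace Pool.Agent.L7h13.XI

open Pool.Agent.L7h13.SP H370

/-- the quotient of Gamma values, from the beta integral -/
lemma gratio {z : ℂ} {h : ℝ} (hz : 0 < z.re) (hh : 0 < h) :
    ‖Gamma z‖ * Real.Gamma (z.re + h) ≤ ‖Gamma (z + h)‖ * Real.Gamma z.re := by
  have h1 := Complex.Gamma_mul_Gamma_eq_betaIntegral hz (t := (h : ℂ)) (by simpa using hh)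
  have h2 := Complex.Gamma_mul_Gamma_eq_betaIntegral (s := (z.re : ℂ)) (t := (h : ℂ)) (by simpa using hz)
    (by simpa using hh)
  have hbeta : ‖betaIntegral z h‖ ≤ ‖betaIntegral (z.re : ℂ) h‖ := by
    have e1 : betaIntegral (z.re : ℂ) h =
        ((∫ x in (0:ℝ)..1, x ^ (z.re - 1) * (1 - x) ^ (h - 1) : ℝ) : ℂ) := by
      unfold betaIntegral
      rw [← intervalIntegral.integral_ofReal]
      apply intervalIntegral.integral_congr
      intro x hx
      rw [uIcc_of_le zero_le_one] at hx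
      change (x : ℂ) ^ ((z.re : ℂ) - 1) * (1 - (x : ℂ)) ^ ((h : ℂ) - 1) =
        ((x ^ (z.re - 1) * (1 - x) ^ (h - 1) : ℝ) : ℂ)
      rw [Complex.ofReal_mul, Complex.ofReal_cpow hx.1, Complex.ofReal_cpow (by linarith [hx.2])]
      push_cast
      rfl
    have e2 : 0 ≤ ∫ x in (0:ℝ)..1, x ^ (z.re - 1) * (1 - x) ^ (h - 1) := by
      apply intervalIntegral.integral_nonneg zero_le_one
      intro x hx
      exact mul_nonneg (Real.rpow_nonneg hx.1 _) (Real.rpow_nonneg (by linarith [hx.2]) _)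
    rw [e1, Complex.norm_real, Real.norm_of_nonneg e2]
    unfold betaIntegral
    have hint : IntervalIntegrable (fun x : ℝ => x ^ (z.re - 1) * (1 - x) ^ (h - 1)) volume 0 1 := by
      have := Complex.betaIntegral_convergent (u := (z.re : ℂ)) (v := (h : ℂ)) (by simpa using hz)
        (by simpa using hh)
      have h3 := this.norm
      refine h3.congr_ae ?_
      rw [uIoc_of_le zero_le_one]
      refine (ae_restrict_iff' measurableSet_Ioc).2 ?_
      have h4 : ∀ᵐ x : ℝ, x ≠ 1 := by simp [ae_iff]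
      filter_upwards [h4] with x hx1 hx
      have hx2 : 0 < 1 - x := by
        rcases hx.2.lt_or_eq with h | h
        · linarith
        · exact absurd h hx1
      have e3 : (1 - (x : ℂ)) = ((1 - x : ℝ) : ℂ) := by push_cast; rfl
      rw [norm_mul, e3, Complex.norm_cpow_eq_rpow_re_of_pos hx.1,
        Complex.norm_cpow_eq_rpow_re_of_pos hx2]
      simp
    refine intervalIntegral.norm_integral_le_of_norm_le zero_le_one ?_ hint
    have h4 : ∀ᵐ x : ℝ, x ≠ 1 := by simp [ae_iff]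
    filter_upwards [h4] with x hx1 hx
    have hx2 : 0 < 1 - x := by
      rcases hx.2.lt_or_eq with h | h
      · linarith
      · exact absurd h hx1
    have e3 : (1 - (x : ℂ)) = ((1 - x : ℝ) : ℂ) := by push_cast; rfl
    rw [norm_mul, e3, Complex.norm_cpow_eq_rpow_re_of_pos hx.1,
      Complex.norm_cpow_eq_rpow_re_of_pos hx2]
    simp
  have n1 := congrArg norm h1
  have n2 := congrArg norm h2
  rw [norm_mul, norm_mul] at n1 n2
  have g1 : Gamma ((z.re : ℝ) : ℂ) = ((Real.Gamma z.re : ℝ) : ℂ) := Complex.Gamma_ofReal _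
  have g2 : Gamma ((z.re : ℂ) + (h : ℂ)) = ((Real.Gamma (z.re + h) : ℝ) : ℂ) := by
    rw [← Complex.ofReal_add, Complex.Gamma_ofReal]
  rw [g1, g2, Complex.norm_real, Complex.norm_real, Real.norm_of_nonneg (Real.Gamma_pos_of_pos hz).le,
    Real.norm_of_nonneg (Real.Gamma_pos_of_pos (by linarith)).le] at n2
  have hG : 0 < ‖Gamma (h : ℂ)‖ := norm_pos_iff.2 (Complex.Gamma_ne_zero_of_re_pos (by simpa using hh))
  have hGx := Real.Gamma_pos_of_pos hz
  have hGxh := Real.Gamma_pos_of_pos (show 0 < z.re + h by linarith)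
  -- multiply
  have key : (‖Gamma z‖ * Real.Gamma (z.re + h)) * ‖Gamma (h : ℂ)‖ ≤
      (‖Gamma (z + h)‖ * Real.Gamma z.re) * ‖Gamma (h : ℂ)‖ := by
    calc (‖Gamma z‖ * Real.Gamma (z.re + h)) * ‖Gamma (h : ℂ)‖
        = (‖Gamma z‖ * ‖Gamma (h : ℂ)‖) * Real.Gamma (z.re + h) := by ring
      _ = ‖Gamma (z + h)‖ * (Real.Gamma (z.re + h) * ‖betaIntegral z h‖) := by rw [n1]; ring
      _ ≤ ‖Gamma (z + h)‖ * (Real.Gamma (z.re + h) * ‖betaIntegral (z.re : ℂ) h‖) := by gcongr
      _ = ‖Gamma (z + h)‖ * (Real.Gamma z.re * ‖Gamma (h : ℂ)‖) := by rw [n2]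
      _ = _ := by ring
  exact le_of_mul_le_mul_right key hG

lemma nle {p q : ℂ} (h1 : |p.re| ≤ |q.re|) (h2 : p.im = q.im) : ‖p‖ ≤ ‖q‖ := by
  have h3 : ‖p‖ ^ 2 ≤ ‖q‖ ^ 2 := by
    rw [Complex.sq_norm, Complex.sq_norm, Complex.normSq_apply, Complex.normSq_apply, h2]
    have := sq_le_sq.2 h1
    nlinarith
  exact le_of_sq_le_sq h3 (norm_nonneg _)

lemma gamma_step {x h : ℝ} (hx : 1 < x) (hh : 0 < h) :
    (x - 1) ^ h * Real.Gamma x ≤ Real.Gamma (x + h) := by
  have h1 := Real.convexOn_log_Gamma.slope_mono_adjacent (x := x - 1) (y := x) (z := x + h)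
    (by simp only [mem_Ioi]; linarith) (by simp only [mem_Ioi]; linarith) (by linarith) (by linarith)
  simp only [Function.comp_apply] at h1
  have h2 : x - (x - 1) = 1 := by ring
  have h3 : x + h - x = h := by ring
  rw [h2, h3, div_one] at h1
  have h4 : Real.Gamma x = (x - 1) * Real.Gamma (x - 1) := by
    have := Real.Gamma_add_one (s := x - 1) (by linarith)
    rwa [sub_add_cancel] at this
  have p1 := Real.Gamma_pos_of_pos (show 0 < x - 1 by linarith)
  have p2 := Real.Gamma_pos_of_pos (show 0 < x by linarith)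
  have p3 := Real.Gamma_pos_of_pos (show 0 < x + h by linarith)
  have h5 : Real.log (Real.Gamma x) - Real.log (Real.Gamma (x - 1)) = Real.log (x - 1) := by
    rw [h4, Real.log_mul (by linarith) p1.ne']
    ring
  rw [h5, le_div_iff₀ hh] at h1
  have h6 : Real.log ((x - 1) ^ h * Real.Gamma x) ≤ Real.log (Real.Gamma (x + h)) := by
    rw [Real.log_mul (by have : 0 < (x - 1) ^ h := Real.rpow_pos_of_pos (by linarith) _
                         exact this.ne') p2.ne', Real.log_rpow (by linarith)]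
    linarith
  exact (Real.log_le_log_iff (by have : 0 < (x - 1) ^ h := Real.rpow_pos_of_pos (by linarith) _
                                 positivity) p3).1 h6

/-- no zeros to the right -/
lemma ff_nz {a : ℂ} (ha : a ≠ 0) (b : ℂ) {h : ℝ} (h0 : 0 < h) (h1 : h < 1 / 2) :
    ∃ T₀ : ℝ, 2 ≤ T₀ ∧ ∀ z : ℂ, 7 / 4 ≤ z.re → T₀ ≤ z.im → FF a b h z ≠ 0 := by
  obtain ⟨A, hA1, hA⟩ := Pool.Agent.Y757.LS.zeta_bounds (a := 5 / 4) (by norm_num)
  have ha0 : 0 < ‖a‖ := norm_pos_iff.2 ha
  have hA0 : 0 < A := by linarith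
  obtain ⟨X₁, hX1, hX⟩ := absorb ((‖b‖ + 1) * A ^ 2 * Real.pi ^ h / ‖a‖) (ε := h) h0
  obtain ⟨n, hn⟩ := exists_nat_ge (2 * X₁ + 10)
  obtain ⟨c, C, T₀, hc, _, hT0, hT⟩ := ff_cen ha b h0 h1 n
  refine ⟨T₀, hT0, fun z g1 g2 => ?_⟩
  have ht0 : 0 < z.im := by linarith
  rcases le_or_gt z.re n with g3 | g3
  · have h2 := (hT z g1 g3 g2).1
    have h3 : 0 < c * sF h z := by unfold sF; positivity
    exact norm_pos_iff.1 (by linarith)
  · have r1 : (z + h).re = z.re + h := by simp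
    have r2 : (z - h).re = z.re - h := by simp
    have i1 : (z + h).im = z.im := by simp
    have i2 : (z - h).im = z.im := by simp
    obtain ⟨_, z2⟩ := hA (z + h) (by rw [r1]; linarith)
    obtain ⟨z3, _⟩ := hA (z - h) (by rw [r2]; linarith)
    -- the Gamma quotient
    set u : ℂ := (z - h) / 2 with hu
    have hur : u.re = (z.re - h) / 2 := by rw [hu]; simp
    have hu1 : X₁ + 1 ≤ u.re := by rw [hur]; linarith
    have hup : 0 < u.re := by linarith
    have k1 := gratio (z := u) (h := h) hup h0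
    have k2 := gamma_step (x := u.re) (h := h) (by linarith) h0
    have k3 := hX (u.re - 1) (by linarith)
    have e1 : u + h = (z + h) / 2 := by rw [hu]; ring
    rw [e1] at k1
    have pG := Real.Gamma_pos_of_pos hup
    have k4 : (u.re - 1) ^ h * ‖Gamma u‖ ≤ ‖Gamma ((z + h) / 2)‖ := by
      have : ((u.re - 1) ^ h * ‖Gamma u‖) * Real.Gamma u.re ≤ ‖Gamma ((z + h) / 2)‖ * Real.Gamma u.re := by
        calc ((u.re - 1) ^ h * ‖Gamma u‖) * Real.Gamma u.re =
            ‖Gamma u‖ * ((u.re - 1) ^ h * Real.Gamma u.re) := by ring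
          _ ≤ ‖Gamma u‖ * Real.Gamma (u.re + h) := mul_le_mul_of_nonneg_left k2 (norm_nonneg _)
          _ ≤ _ := k1
      exact le_of_mul_le_mul_right this pG
    have hGu : 0 < ‖Gamma u‖ := norm_pos_iff.2 (Complex.Gamma_ne_zero_of_re_pos hup)
    intro hF
    unfold FF at hF
    have h5 : ‖a‖ * ‖xi (z + h)‖ = ‖b‖ * ‖xi (z - h)‖ := by
      rw [← norm_mul, ← norm_mul, eq_neg_of_add_eq_zero_left hF, norm_neg]
    rw [xi_zeta (by rw [i1]; exact ht0.ne'), xi_zeta (by rw [i2]; exact ht0.ne')] at h5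
    rw [Gammaℝ_def, Gammaℝ_def] at h5
    simp only [norm_mul, norm_div] at h5
    have hπ := Real.pi_pos
    rw [Complex.norm_cpow_eq_rpow_re_of_pos hπ, Complex.norm_cpow_eq_rpow_re_of_pos hπ] at h5
    have q1 : (-(z + h) / 2).re = -(z.re / 2) - h / 2 := by simp; ring
    have q2 : (-(z - h) / 2).re = -(z.re / 2) + h / 2 := by simp; ring
    rw [q1, q2, ← hu] at h5
    have q3 : Real.pi ^ (-(z.re / 2) - h / 2) = Real.pi ^ (-h) * Real.pi ^ (-(z.re / 2) + h / 2) := by
      rw [← Real.rpow_add hπ]; congr 1; ring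
    rw [q3] at h5
    set W := Real.pi ^ (-(z.re / 2) + h / 2) with hW
    have hW0 : 0 < W := by positivity
    have m1 : ‖z - h‖ ≤ ‖z + h‖ := by
      apply nle
      · rw [r1, r2, abs_of_pos (by linarith), abs_of_pos (by linarith)]; linarith
      · rw [i1, i2]
    have m2 : ‖z - h - 1‖ ≤ ‖z + h - 1‖ := by
      apply nle
      · rw [Complex.sub_re, Complex.sub_re _ 1, r1, r2, Complex.one_re, abs_of_pos (by linarith),
          abs_of_pos (by linarith)]; linarith
      · rw [Complex.sub_im, Complex.sub_im _ 1, i1, i2]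
    have m3 : 0 < ‖z - h‖ := by
      have := Complex.abs_re_le_norm (z - h)
      rw [r2, abs_of_pos (by linarith)] at this
      linarith
    have m4 : 0 < ‖z - h - 1‖ := by
      have := Complex.abs_re_le_norm (z - h - 1)
      rw [Complex.sub_re, r2, Complex.one_re, abs_of_pos (by linarith)] at this
      linarith
    have n2 : ‖(2:ℂ)‖ = 2 := by simp
    rw [n2] at h5
    have hπh : 0 < Real.pi ^ h := by positivity
    have hinv : Real.pi ^ (-h) = (Real.pi ^ h)⁻¹ := Real.rpow_neg hπ.le h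
    rw [div_le_iff₀ ha0] at k3
    set N := ‖z - h‖ * ‖z - h - 1‖ / 2 with hN
    have hN0 : 0 < N := by positivity
    have hq0 : 0 ≤ (u.re - 1) ^ h := Real.rpow_nonneg (by linarith) _
    set q := (u.re - 1) ^ h with hq
    have low : N * (W * ‖Gamma u‖) * ((‖b‖ + 1) * A) ≤ ‖a‖ * (‖z + h‖ * ‖z + h - 1‖ / 2 *
        (Real.pi ^ (-h) * W * ‖Gamma ((z + h) / 2)‖ * ‖riemannZeta (z + h)‖)) := by
      calc N * (W * ‖Gamma u‖) * ((‖b‖ + 1) * A)
          = N * (W * ‖Gamma u‖) * ((‖b‖ + 1) * A ^ 2 * Real.pi ^ h) * (Real.pi ^ (-h) * (1 / A)) := by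
            rw [hinv]; field_simp
        _ ≤ N * (W * ‖Gamma u‖) * (q * ‖a‖) * (Real.pi ^ (-h) * (1 / A)) := by
            gcongr
        _ = ‖a‖ * (N * (Real.pi ^ (-h) * W * (q * ‖Gamma u‖) * (1 / A))) := by ring
        _ ≤ _ := by
            rw [hN]
            gcongr
    have up' : ‖b‖ * (N * (W * ‖Gamma u‖ * ‖riemannZeta (z - h)‖)) ≤
        N * (W * ‖Gamma u‖) * (‖b‖ * A) := by
      calc ‖b‖ * (N * (W * ‖Gamma u‖ * ‖riemannZeta (z - h)‖)) ≤ ‖b‖ * (N * (W * ‖Gamma u‖ * A)) := by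
            gcongr
        _ = _ := by ring
    rw [h5] at low
    have h6 := low.trans up'
    have h7 : 0 < N * (W * ‖Gamma u‖) * A := by positivity
    have h8 : N * (W * ‖Gamma u‖) * ((‖b‖ + 1) * A) =
        N * (W * ‖Gamma u‖) * (‖b‖ * A) + N * (W * ‖Gamma u‖) * A := by ring
    linarith

end Pool.Agent.L7h13.XI
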