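import Pool.Agent.L7h13.XI.Zer

/-!
# Final statements
-/

set_option autoImplicit false

open Complex Set Metric

namespace Pool.Agent.L7h13.XI

open Pool.Agent.L7h13.SP H370

lemma xi_conj' (s : ℂ) : xi ((starRingEnd ℂ) s) = (starRingEnd ℂ) (xi s) := by
  have hd : Dense {z : ℂ | z.im ≠ 0} := by
    have h1 : Dense ({0}ᶜ : Set ℝ) := dense_compl_singleton 0
    exact h1.preimage Complex.isOpenMap_im
  have h2 : Continuous fun z : ℂ => xi ((starRingEnd ℂ) z) :=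
    xi_diff.continuous.comp Complex.continuous_conj
  have h3 : Continuous fun z : ℂ => (starRingEnd ℂ) (xi z) :=
    Complex.continuous_conj.comp xi_diff.continuous
  have h4 := Continuous.ext_on hd h2 h3 (fun z hz => xi_conj hz)
  exact congrFun h4 s

lemma ff_cj (a b : ℂ) (h : ℝ) : cj (FF a b h) = FF ((starRingEnd ℂ) a) ((starRingEnd ℂ) b) h := by
  funext s
  unfold cj FF
  rw [map_add, map_mul, map_mul, ← xi_conj', ← xi_conj']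
  simp

lemma ff_refl (a b : ℂ) (h : ℝ) : (fun w => FF a b h (1 - w)) = FF b a h := by
  funext s
  unfold FF
  rw [show (1 : ℂ) - s + h = 1 - (s - h) by ring, show (1 : ℂ) - s - h = 1 - (s + h) by ring,
    xi_one_sub, xi_one_sub]
  ring

lemma fq_union {f : ℂ → ℂ} {E E' : Set ℝ} {θ : ℝ} (h1 : FewQ f E θ) (h2 : FewQ f E' θ) :
    FewQ f (E ∪ E') (2 * θ) := by
  classical
  obtain ⟨T₁, hT1⟩ := h1
  obtain ⟨T₂, hT2⟩ := h2
  refine ⟨max T₁ T₂, fun T hT S hS => ?_⟩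
  have k1 := hT1 T ((le_max_left _ _).trans hT) (S.filter fun z => z.re ∈ E) (fun z hz => by
    rw [Finset.mem_filter] at hz
    exact ⟨hz.2, (hS z hz.1).2⟩)
  have k2 := hT2 T ((le_max_right _ _).trans hT) (S.filter fun z => ¬ z.re ∈ E) (fun z hz => by
    rw [Finset.mem_filter] at hz
    exact ⟨(hS z hz.1).1.resolve_left hz.2, (hS z hz.1).2⟩)
  rw [← Finset.sum_filter_add_sum_filter_not S (fun z => z.re ∈ E)]
  linarith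

lemma fq_mono {f : ℂ → ℂ} {E E' : Set ℝ} {θ : ℝ} (h : FewQ f E θ) (hE : E' ⊆ E) :
    FewQ f E' θ := by
  obtain ⟨T₁, hT1⟩ := h
  exact ⟨T₁, fun T hT S hS => hT1 T hT S fun z hz => ⟨hE (hS z hz).1, (hS z hz).2⟩⟩

/-- off the critical line -/
def Off (δ : ℝ) : Set ℝ := {x | δ ≤ |x - 1 / 2|}

lemma conj_ne {a : ℂ} (ha : a ≠ 0) : (starRingEnd ℂ) a ≠ 0 := by
  intro h
  exact ha (by simpa using h)

theorem off_few {a b : ℂ} (ha : a ≠ 0) (hb : b ≠ 0) {h : ℝ} (h0 : 0 < h) (h1 : h < 1 / 2)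
    (H : Bd (1 / 2 + h)) {δ θ : ℝ} (hδ : 0 < δ) (hθ : 0 < θ) : FewQ (FF a b h) (Off δ) θ := by
  have key : ∀ a b : ℂ, a ≠ 0 → FewU (FF a b h) (Ici (1 / 2 + δ)) 1 (θ / 2) := by
    intro a b ha
    set δ' := min δ (1 / 10) with hδ'
    have h2 : 0 < δ' := lt_min hδ (by norm_num)
    have h3 : δ' ≤ δ := min_le_left _ _
    have h4 : δ' ≤ 1 / 10 := min_le_right _ _
    obtain ⟨c, hc, hcov⟩ := FewU.cover (f := FF a b h) (E := Ici (1 / 2 + δ')) (y := δ' / 4)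
      (by positivity) 1
    have h6 := ff_jensen ha b h0 h1 (fun σ h7 _ => exu_of_bd H h7) h2 h4
      (ε := θ / 2 / c) (by positivity)
    have h7 := hcov _ (by positivity) h6
    rw [mul_div_cancel₀ _ hc.ne'] at h7
    exact h7.mono (fun x hx => by
      simp only [mem_Ici] at hx ⊢; linarith) le_rfl
  have r1 : FewQ (FF a b h) (Ici (1 / 2 + δ)) (θ / 2) := by
    refine few_of_upper (fun s _ => ff_an a b h s) (key a b ha) ?_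
    rw [ff_cj]
    exact key _ _ (conj_ne ha)
  have r2 : FewQ (FF a b h) (Iic (1 / 2 - δ)) (θ / 2) := by
    refine few_of_left (fun s _ => ff_an a b h s) (E' := Ici (1 / 2 + δ)) (fun x hx => by
      simp only [mem_Iic, mem_Ici] at hx ⊢; linarith) ?_ ?_
    · rw [ff_refl]; exact key _ _ hb
    · rw [ff_cj, ff_refl]; exact key _ _ (conj_ne hb)
  have r3 := fq_union r1 r2
  rw [mul_div_cancel₀ _ (two_ne_zero)] at r3
  refine fq_mono r3 fun x hx => ?_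
  simp only [Off, mem_setOf_eq] at hx
  rcases le_abs.1 hx with h | h
  · left; simp only [mem_Ici]; linarith
  · right; simp only [mem_Iic]; linarith

/-- from a bound of `ξ` on a line -/
lemma exu_of_xi {x κ : ℝ} (hx1 : -4 ≤ x) (hx2 : x ≤ 4) (H : ∃ K T₀ : ℝ, ∀ T : ℝ, T₀ ≤ T →
    ‖xi ⟨x, T⟩‖ ≤ K * T ^ κ * sz ⟨x, T⟩) : Exu x κ := by
  intro ε hε
  obtain ⟨K, T₀, h⟩ := H
  obtain ⟨c, C, hc, hC, hs⟩ := xi_size 4
  obtain ⟨T₁, hT1, hab⟩ := absorb (K / c) hε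
  refine ⟨|T₀| + T₁ + 2, fun t ht => ?_⟩
  have h1 := abs_nonneg T₀
  have h2 := le_abs_self T₀
  have ht0 : 0 < t := by linarith
  have k1 := h t (by linarith)
  have k2 := (hs ⟨x, t⟩ (by push_cast; exact hx1) (by push_cast; exact hx2) (by
    simp only; linarith)).1
  have k3 := hab t (by linarith)
  have hS : 0 < sz ⟨x, t⟩ := sz_pos ht0
  have k4 : c * ‖riemannZeta ⟨x, t⟩‖ * sz ⟨x, t⟩ ≤ (K * t ^ κ) * sz ⟨x, t⟩ := by
    calc c * ‖riemannZeta ⟨x, t⟩‖ * sz ⟨x, t⟩ = c * sz ⟨x, t⟩ * ‖riemannZeta ⟨x, t⟩‖ := by ring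
      _ ≤ _ := k2.trans k1
  have k5 := le_of_mul_le_mul_right k4 hS
  rw [div_le_iff₀ hc] at k3
  have hk : 0 < t ^ κ := by positivity
  have k6 : c * ‖riemannZeta ⟨x, t⟩‖ ≤ c * (t ^ ε * t ^ κ) := by
    calc c * ‖riemannZeta ⟨x, t⟩‖ ≤ K * t ^ κ := k5
      _ ≤ (t ^ ε * c) * t ^ κ := mul_le_mul_of_nonneg_right k3 hk.le
      _ = _ := by ring
  have k7 := le_of_mul_le_mul_left k6 hc
  rw [← Real.rpow_add ht0, add_comm] at k7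
  exact k7

/-- two combinations -/
theorem two_back {a₁ b₁ a₂ b₂ : ℂ} (ha₁ : a₁ ≠ 0) (ha₂ : a₂ ≠ 0) (hdet : a₁ * b₂ ≠ a₂ * b₁) {h : ℝ}
    (h0 : 0 < h) (h1 : h < 1 / 2) {δ : ℝ} (hδ : 0 < δ) (hδ1 : δ ≤ 1 / 10) {κ : ℝ} (hκ : 0 < κ) :
    ∃ θ : ℝ, 0 < θ ∧ (FewQ (FF a₁ b₁ h) (Ici (1 / 2 + δ)) θ → FewQ (FF a₂ b₂ h) (Ici (1 / 2 + δ)) θ →
      Exu (1 / 2 + h + 2 * δ) κ) := by
  obtain ⟨θ₁, hθ1, H1⟩ := ff_back ha₁ b₁ h0 h1 hδ hδ1 hκ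
  obtain ⟨θ₂, hθ2, H2⟩ := ff_back ha₂ b₂ h0 h1 hδ hδ1 hκ
  refine ⟨min θ₁ θ₂, lt_min hθ1 hθ2, fun F1 F2 => ?_⟩
  have hmono : ∀ (f : ℂ → ℂ) (E : Set ℝ) (θ θ' : ℝ), θ ≤ θ' → FewQ f E θ → FewU f E 1 θ' := by
    intro f E θ θ' h3 h4
    obtain ⟨T₀, hT⟩ := few_up h4
    refine ⟨max T₀ 1, fun T hT' S hS => (hT T ((le_max_left _ _).trans hT') S hS).trans ?_⟩
    apply mul_le_mul_of_nonneg_right h3 (Real.log_nonneg ((le_max_right _ _).trans hT'))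
  obtain ⟨T₁, _, G1⟩ := H1 (hmono _ _ _ _ (min_le_left _ _) F1)
  obtain ⟨T₂, _, G2⟩ := H2 (hmono _ _ _ _ (min_le_right _ _) F2)
  have hd : a₁ * b₂ - a₂ * b₁ ≠ 0 := sub_ne_zero.2 hdet
  have hd0 : 0 < ‖a₁ * b₂ - a₂ * b₁‖ := norm_pos_iff.2 hd
  apply exu_of_xi (by linarith) (by linarith)
  refine ⟨(‖b₂‖ + ‖b₁‖) / ‖a₁ * b₂ - a₂ * b₁‖, max (max T₁ T₂) 1, fun T hT => ?_⟩
  have f1 : T₁ ≤ T := ((le_max_left _ _).trans (le_max_left _ _)).trans hT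
  have f2 : T₂ ≤ T := ((le_max_right _ _).trans (le_max_left _ _)).trans hT
  have f3 : 1 ≤ T := (le_max_right _ _).trans hT
  have hT0 : 0 < T := by linarith
  set z : ℂ := ⟨1 / 2 + 2 * δ, T⟩ with hz
  have g1 := G1 T f1 (1 / 2 + 2 * δ) le_rfl (by linarith)
  have g2 := G2 T f2 (1 / 2 + 2 * δ) le_rfl (by linarith)
  rw [← hz] at g1 g2
  have e1 : (⟨1 / 2 + h + 2 * δ, T⟩ : ℂ) = z + h := by
    apply Complex.ext
    · simp [hz]; ring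
    · simp [hz]
  have e2 : sz (z + h) = sF h z := by
    unfold sz sF
    simp only [Complex.add_re, Complex.add_im, Complex.ofReal_re, Complex.ofReal_im, add_zero]
    congr 2
    ring
  rw [e1, e2]
  have e3 : (a₁ * b₂ - a₂ * b₁) * xi (z + h) = b₂ * FF a₁ b₁ h z - b₁ * FF a₂ b₂ h z := by
    unfold FF; ring
  have e4 : ‖a₁ * b₂ - a₂ * b₁‖ * ‖xi (z + h)‖ ≤ (‖b₂‖ + ‖b₁‖) * (T ^ κ * sF h z) := by
    rw [← norm_mul, e3]
    refine (norm_sub_le _ _).trans ?_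
    rw [norm_mul, norm_mul, add_mul]
    exact add_le_add (mul_le_mul_of_nonneg_left g1 (norm_nonneg _))
      (mul_le_mul_of_nonneg_left g2 (norm_nonneg _))
  rw [mul_comm, ← le_div_iff₀ hd0] at e4
  refine e4.trans (le_of_eq ?_)
  ring

/-- three combinations with the same coefficients -/
theorem three_back {a b : ℂ} (ha : a ≠ 0) (hab : a + b ≠ 0) {h₁ h₂ : ℝ}
    (h1 : 0 < h₁) (h2 : 0 < h₂) (h3 : h₁ + h₂ < 1 / 2) {δ : ℝ} (hδ : 0 < δ) (hδ1 : δ ≤ 1 / 10) {κ : ℝ}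
    (hκ : 0 < κ) :
    ∃ θ : ℝ, 0 < θ ∧ (FewQ (FF a b h₁) (Ici (1 / 2 + δ)) θ → FewQ (FF a b h₂) (Ici (1 / 2 + δ)) θ →
      FewQ (FF a b (h₁ + h₂)) (Ici (1 / 2 + δ)) θ → Exu (1 / 2 + 2 * h₁ + h₂ + 2 * δ) κ) := by
  obtain ⟨θ₁, hθ1, H1⟩ := ff_back ha b h1 (by linarith) hδ hδ1 hκ
  obtain ⟨θ₂, hθ2, H2⟩ := ff_back ha b h2 (by linarith) hδ hδ1 hκ
  obtain ⟨θ₃, hθ3, H3⟩ := ff_back ha b (show 0 < h₁ + h₂ by linarith) h3 hδ hδ1 hκ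
  refine ⟨min (min θ₁ θ₂) θ₃, lt_min (lt_min hθ1 hθ2) hθ3, fun F1 F2 F3 => ?_⟩
  have hmono : ∀ (f : ℂ → ℂ) (E : Set ℝ) (θ θ' : ℝ), θ ≤ θ' → FewQ f E θ → FewU f E 1 θ' := by
    intro f E θ θ' h3 h4
    obtain ⟨T₀, hT⟩ := few_up h4
    refine ⟨max T₀ 1, fun T hT' S hS => (hT T ((le_max_left _ _).trans hT') S hS).trans ?_⟩
    apply mul_le_mul_of_nonneg_right h3 (Real.log_nonneg ((le_max_right _ _).trans hT'))
  obtain ⟨T₁, _, G1⟩ := H1 (hmono _ _ _ _ ((min_le_left _ _).trans (min_le_left _ _)) F1)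
  obtain ⟨T₂, _, G2⟩ := H2 (hmono _ _ _ _ ((min_le_left _ _).trans (min_le_right _ _)) F2)
  obtain ⟨T₃, _, G3⟩ := H3 (hmono _ _ _ _ (min_le_right _ _) F3)
  have hd : a * (a + b) ≠ 0 := mul_ne_zero ha hab
  have hd0 : 0 < ‖a * (a + b)‖ := norm_pos_iff.2 hd
  apply exu_of_xi (by linarith) (by linarith)
  refine ⟨(‖a‖ + ‖b‖ + ‖b‖) / ‖a * (a + b)‖, max (max (max T₁ T₂) T₃) 1, fun T hT => ?_⟩
  have f1 : T₁ ≤ T := (((le_max_left _ _).trans (le_max_left _ _)).trans (le_max_left _ _)).trans hT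
  have f2 : T₂ ≤ T := (((le_max_right _ _).trans (le_max_left _ _)).trans (le_max_left _ _)).trans hT
  have f3 : T₃ ≤ T := ((le_max_right _ _).trans (le_max_left _ _)).trans hT
  have f4 : 1 ≤ T := (le_max_right _ _).trans hT
  have hT0 : 0 < T := by linarith
  have g1 := G1 T f1 (1 / 2 + 2 * δ + h₁ + h₂) (by linarith) (by linarith)
  have g2 := G2 T f2 (1 / 2 + 2 * δ) le_rfl (by linarith)
  have g3 := G3 T f3 (1 / 2 + 2 * δ + h₁) (by linarith) (by linarith)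
  set p : ℂ := ⟨1 / 2 + 2 * h₁ + h₂ + 2 * δ, T⟩ with hp
  set S := sz p with hS
  have s1 : sF h₁ ⟨1 / 2 + 2 * δ + h₁ + h₂, T⟩ = S := by
    rw [hS]; unfold sz sF; simp only [hp]
    congr 2
    ring
  have s3 : sF (h₁ + h₂) ⟨1 / 2 + 2 * δ + h₁, T⟩ = S := by
    rw [hS]; unfold sz sF; simp only [hp]
    congr 2
    ring
  have s2 : sF h₂ ⟨1 / 2 + 2 * δ, T⟩ ≤ S := by
    rw [hS]; unfold sz sF; simp only [hp]
    apply mul_le_mul_of_nonneg_right _ (Real.exp_pos _).le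
    exact Real.rpow_le_rpow_of_exponent_le f4 (by linarith)
  rw [s1] at g1
  rw [s3] at g3
  have g2' := g2.trans (mul_le_mul_of_nonneg_left s2 (show 0 ≤ T ^ κ by positivity))
  have e3 : a * (a + b) * xi p = a * FF a b h₁ ⟨1 / 2 + 2 * δ + h₁ + h₂, T⟩ +
      b * FF a b (h₁ + h₂) ⟨1 / 2 + 2 * δ + h₁, T⟩ - b * FF a b h₂ ⟨1 / 2 + 2 * δ, T⟩ := by
    unfold FF
    have c1 : (⟨1 / 2 + 2 * δ + h₁ + h₂, T⟩ : ℂ) + h₁ = p := by
      apply Complex.ext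
      · simp [hp]; ring
      · simp [hp]
    have c2 : (⟨1 / 2 + 2 * δ + h₁ + h₂, T⟩ : ℂ) - h₁ = ⟨1 / 2 + 2 * δ, T⟩ + h₂ := by
      apply Complex.ext
      · simp; ring
      · simp
    have c3 : (⟨1 / 2 + 2 * δ + h₁, T⟩ : ℂ) + ((h₁ + h₂ : ℝ) : ℂ) = p := by
      apply Complex.ext
      · simp [hp]; ring
      · simp [hp]
    have c4 : (⟨1 / 2 + 2 * δ + h₁, T⟩ : ℂ) - ((h₁ + h₂ : ℝ) : ℂ) = ⟨1 / 2 + 2 * δ, T⟩ - h₂ := by
      apply Complex.ext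
      · simp; ring
      · simp
    rw [c1, c2, c3, c4]
    ring
  have e4 : ‖a * (a + b)‖ * ‖xi p‖ ≤ (‖a‖ + ‖b‖ + ‖b‖) * (T ^ κ * S) := by
    rw [← norm_mul, e3]
    refine (norm_sub_le _ _).trans ?_
    rw [add_mul]
    refine add_le_add ((norm_add_le _ _).trans ?_) ?_
    · rw [norm_mul, norm_mul, add_mul]
      exact add_le_add (mul_le_mul_of_nonneg_left g1 (norm_nonneg _))
        (mul_le_mul_of_nonneg_left g3 (norm_nonneg _))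
    · rw [norm_mul]
      exact mul_le_mul_of_nonneg_left g2' (norm_nonneg _)
  rw [mul_comm, ← le_div_iff₀ hd0] at e4
  refine e4.trans (le_of_eq ?_)
  ring

lemma bd_of_near {σ₀ : ℝ} (h0 : 1 / 2 ≤ σ₀)
    (h : ∀ η κ : ℝ, 0 < η → 0 < κ → ∃ σ, σ₀ < σ ∧ σ ≤ σ₀ + η ∧ σ ≤ 2 ∧ Exu σ κ) :
    Bd σ₀ := by
  apply bd_of_exu
  intro σ h1 h2
  apply Exu.closed
  intro κ hκ ε hε
  obtain ⟨σ', g1, g2, g3, g4⟩ := h (σ - σ₀) κ (by linarith) hκ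
  obtain ⟨T₀, _, hT⟩ := g4.right hκ.le (by linarith) (by linarith) hε
  exact ⟨T₀, fun t ht => hT ⟨σ, t⟩ (by simp only; linarith) (by simp only; linarith) ht⟩

lemma off_right {f : ℂ → ℂ} {δ θ : ℝ} (hδ : 0 < δ) (h : FewQ f (Off δ) θ) : FewQ f (Ici (1 / 2 + δ)) θ := by
  refine fq_mono h fun x hx => ?_
  simp only [Off, mem_setOf_eq, mem_Ici] at hx ⊢
  rw [abs_of_nonneg (by linarith)]
  linarith

theorem bd_two {a₁ b₁ a₂ b₂ : ℂ} (ha₁ : a₁ ≠ 0) (ha₂ : a₂ ≠ 0) (hdet : a₁ * b₂ ≠ a₂ * b₁) {h : ℝ}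
    (h0 : 0 < h) (h1 : h < 1 / 2)
    (H : ∀ δ θ : ℝ, 0 < δ → 0 < θ → FewQ (FF a₁ b₁ h) (Ici (1 / 2 + δ)) θ ∧
      FewQ (FF a₂ b₂ h) (Ici (1 / 2 + δ)) θ) : Bd (1 / 2 + h) := by
  apply bd_of_near (by linarith)
  intro η κ hη hκ
  set δ : ℝ := min (η / 2) (1 / 10) with hδ
  have d0 : 0 < δ := lt_min (by positivity) (by norm_num)
  have d1 : δ ≤ η / 2 := min_le_left _ _
  have d2 : δ ≤ 1 / 10 := min_le_right _ _
  obtain ⟨θ, hθ, G⟩ := two_back ha₁ ha₂ hdet h0 h1 d0 d2 hκ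
  obtain ⟨F1, F2⟩ := H δ θ d0 hθ
  exact ⟨1 / 2 + h + 2 * δ, by linarith, by linarith, by linarith, G F1 F2⟩

theorem right_two {a₁ : ℂ} (b₁ : ℂ) (ha₁ : a₁ ≠ 0) {h : ℝ}
    (h0 : 0 < h) (h1 : h < 1 / 2) (H : Bd (1 / 2 + h)) {δ θ : ℝ} (hδ : 0 < δ) (hθ : 0 < θ) :
    FewQ (FF a₁ b₁ h) (Ici (1 / 2 + δ)) θ := by
  have key : ∀ a b : ℂ, a ≠ 0 → FewU (FF a b h) (Ici (1 / 2 + δ)) 1 θ := by
    intro a b ha
    set δ' := min δ (1 / 10) with hδ'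
    have h2 : 0 < δ' := lt_min hδ (by norm_num)
    have h3 : δ' ≤ δ := min_le_left _ _
    have h4 : δ' ≤ 1 / 10 := min_le_right _ _
    obtain ⟨c, hc, hcov⟩ := FewU.cover (f := FF a b h) (E := Ici (1 / 2 + δ')) (y := δ' / 4)
      (by positivity) 1
    have h6 := ff_jensen ha b h0 h1 (fun σ h7 _ => exu_of_bd H h7) h2 h4
      (ε := θ / c) (by positivity)
    have h7 := hcov _ (by positivity) h6
    rw [mul_div_cancel₀ _ hc.ne'] at h7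
    exact h7.mono (fun x hx => by
      simp only [mem_Ici] at hx ⊢; linarith) le_rfl
  refine few_of_upper (fun s _ => ff_an a₁ b₁ h s) (key a₁ b₁ ha₁) ?_
  rw [ff_cj]
  exact key _ _ (conj_ne ha₁)

/-- three shifts give a bound on the critical line -/
theorem three_quant {a b : ℂ} (ha : a ≠ 0) (hab : a + b ≠ 0) {h₁ h₂ : ℝ}
    (h1 : 0 < h₁) (h2 : 0 < h₂) (h3 : h₁ + h₂ < 1 / 2) {κ : ℝ} (hκ : 0 < κ) :
    ∃ δ θ : ℝ, 0 < δ ∧ 0 < θ ∧ (FewQ (FF a b h₁) (Ici (1 / 2 + δ)) θ →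
      FewQ (FF a b h₂) (Ici (1 / 2 + δ)) θ → FewQ (FF a b (h₁ + h₂)) (Ici (1 / 2 + δ)) θ →
      ∃ C : ℝ, ∀ t : ℝ, 1 ≤ |t| → ‖riemannZeta (((1 / 2 + 2 * h₁ + h₂ : ℝ) : ℂ) + t * I)‖ ≤ C * |t| ^ κ) := by
  set δ : ℝ := min (κ / 4) (1 / 10) with hδ
  have d0 : 0 < δ := lt_min (by positivity) (by norm_num)
  have d1 : δ ≤ κ / 4 := min_le_left _ _
  have d2 : δ ≤ 1 / 10 := min_le_right _ _
  obtain ⟨θ, hθ, G⟩ := three_back ha hab h1 h2 h3 d0 d2 (κ := κ / 4) (by positivity)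
  refine ⟨δ, θ, d0, hθ, fun F1 F2 F3 => ?_⟩
  have h4 := G F1 F2 F3
  have h5 := h4.left' (σ' := 1 / 2 + 2 * h₁ + h₂) (by linarith) (by linarith) (by linarith)
    (by linarith)
  have h6 : Exu (1 / 2 + 2 * h₁ + h₂) (κ / 2) := h5.mono (by linarith)
  have h7 := bd_line (by positivity) h6 (ε := κ / 2) (by positivity)
  have e : κ / 2 + κ / 2 = κ := by ring
  rwa [e] at h7

/-- the Lindelöf hypothesis from one pair of coefficients -/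
theorem lh_of {a b : ℂ} (ha : a ≠ 0) (hab : a + b ≠ 0)
    (H : ∀ h₀ : ℝ, 0 < h₀ → ∃ h₁ h₂ : ℝ, 0 < h₁ ∧ 0 < h₂ ∧ h₁ + h₂ < h₀ ∧
      ∀ δ θ : ℝ, 0 < δ → 0 < θ → FewQ (FF a b h₁) (Ici (1 / 2 + δ)) θ ∧
      FewQ (FF a b h₂) (Ici (1 / 2 + δ)) θ ∧ FewQ (FF a b (h₁ + h₂)) (Ici (1 / 2 + δ)) θ) :
    Bd (1 / 2) := by
  apply bd_of_near (by norm_num)
  intro η κ hη hκ
  obtain ⟨h₁, h₂, g1, g2, g3, g4⟩ := H (min (1 / 2) (η / 4)) (lt_min (by norm_num) (by positivity))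
  have g5 : h₁ + h₂ < 1 / 2 := g3.trans_le (min_le_left _ _)
  have g6 : h₁ + h₂ < η / 4 := g3.trans_le (min_le_right _ _)
  set δ : ℝ := min (η / 8) (1 / 10) with hδ
  have d0 : 0 < δ := lt_min (by positivity) (by norm_num)
  have d1 : δ ≤ η / 8 := min_le_left _ _
  have d2 : δ ≤ 1 / 10 := min_le_right _ _
  obtain ⟨θ, hθ, G⟩ := three_back ha hab g1 g2 g5 d0 d2 hκ
  obtain ⟨F1, F2, F3⟩ := g4 δ θ d0 hθ
  exact ⟨1 / 2 + 2 * h₁ + h₂ + 2 * δ, by linarith, by linarith, by linarith, G F1 F2 F3⟩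

/-- two combinations, quantitative -/
theorem two_quant {a₁ b₁ a₂ b₂ : ℂ} (ha₁ : a₁ ≠ 0) (ha₂ : a₂ ≠ 0) (hdet : a₁ * b₂ ≠ a₂ * b₁) {h : ℝ}
    (h0 : 0 < h) (h1 : h < 1 / 2) {κ : ℝ} (hκ : 0 < κ) :
    ∃ δ θ : ℝ, 0 < δ ∧ 0 < θ ∧ (FewQ (FF a₁ b₁ h) (Ici (1 / 2 + δ)) θ →
      FewQ (FF a₂ b₂ h) (Ici (1 / 2 + δ)) θ →
      ∃ C : ℝ, ∀ t : ℝ, 1 ≤ |t| → ‖riemannZeta (((1 / 2 + h : ℝ) : ℂ) + t * I)‖ ≤ C * |t| ^ κ) := by
  set δ : ℝ := min (κ / 4) (1 / 10) with hδ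
  have d0 : 0 < δ := lt_min (by positivity) (by norm_num)
  have d1 : δ ≤ κ / 4 := min_le_left _ _
  have d2 : δ ≤ 1 / 10 := min_le_right _ _
  obtain ⟨θ, hθ, G⟩ := two_back ha₁ ha₂ hdet h0 h1 d0 d2 (κ := κ / 4) (by positivity)
  refine ⟨δ, θ, d0, hθ, fun F1 F2 => ?_⟩
  have h4 := G F1 F2
  have h5 := h4.left' (σ' := 1 / 2 + h) (by linarith) (by linarith) (by linarith)
    (by linarith)
  have h6 : Exu (1 / 2 + h) (κ / 2) := h5.mono (by linarith)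
  have h7 := bd_line (by positivity) h6 (ε := κ / 2) (by positivity)
  have e : κ / 2 + κ / 2 = κ := by ring
  rwa [e] at h7

/-- two shifts give a bound on the critical line -/
theorem lh_quant {a b : ℂ} (ha : a ≠ 0) (hab : a + b ≠ 0) {κ : ℝ} (hκ : 0 < κ) :
    ∃ h δ θ : ℝ, 0 < h ∧ 0 < δ ∧ 0 < θ ∧ (FewQ (FF a b h) (Ici (1 / 2 + δ)) θ →
      FewQ (FF a b (2 * h)) (Ici (1 / 2 + δ)) θ →
      ∃ C : ℝ, ∀ t : ℝ, 1 ≤ |t| → ‖riemannZeta (1 / 2 + t * I)‖ ≤ C * |t| ^ κ) := by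
  set h : ℝ := min (κ / 12) (1 / 8) with hh
  have h0 : 0 < h := lt_min (by positivity) (by norm_num)
  have h1 : h ≤ κ / 12 := min_le_left _ _
  have h2 : h ≤ 1 / 8 := min_le_right _ _
  set δ : ℝ := min (κ / 8) (1 / 10) with hδ
  have d0 : 0 < δ := lt_min (by positivity) (by norm_num)
  have d1 : δ ≤ κ / 8 := min_le_left _ _
  have d2 : δ ≤ 1 / 10 := min_le_right _ _
  obtain ⟨θ, hθ, G⟩ := three_back ha hab h0 h0 (by linarith) d0 d2 (κ := κ / 4) (by positivity)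
  refine ⟨h, δ, θ, h0, d0, hθ, fun F1 F2 => ?_⟩
  have e2 : h + h = 2 * h := by ring
  rw [e2] at G
  have h4 := G F1 F1 F2
  have h5 := h4.left' (σ' := 1 / 2) (by linarith) (by linarith) (by linarith)
    (by linarith)
  have h6 : Exu (1 / 2) (3 * κ / 4) := h5.mono (by linarith)
  have h7 := bd_line (by positivity) h6 (ε := κ / 4) (by positivity)
  have e : 3 * κ / 4 + κ / 4 = κ := by ring
  rw [e] at h7
  have e1 : (((1 / 2 : ℝ) : ℂ)) = 1 / 2 := by norm_num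
  rwa [e1] at h7

end Pool.Agent.L7h13.XI
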