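import Pool.Agent.Y180.GL.Gam

/-!
# Two-sided bounds for the Gamma function in vertical strips

Copied from `Pool.Agent.N846.DT.Gam` (to avoid its imports).
-/

set_option autoImplicit false

namespace Pool.Agent.L7h13.XI

open Complex MeasureTheory
open Pool.Agent.Y180.GL (cG cG_pos gam_all)

lemma nrm_le (x t : ℝ) (ht : 0 ≤ t) : ‖(x : ℂ) + t * I‖ ≤ |x| + t := by
  calc ‖(x : ℂ) + t * I‖ ≤ ‖(x : ℂ)‖ + ‖(t : ℂ) * I‖ := norm_add_le _ _
    _ = |x| + t := by
      rw [norm_mul, Complex.norm_I, mul_one, Complex.norm_real, Complex.norm_real,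
        Real.norm_eq_abs, Real.norm_of_nonneg ht]

lemma ne0 (x t : ℝ) (ht : 1 ≤ t) : (x : ℂ) + t * I ≠ 0 := by
  intro h
  have := congrArg Complex.im h
  simp at this
  linarith

/-- lower bound, all real parts -/
lemma low (n : ℕ) : ∃ c : ℝ, 0 < c ∧ ∀ x t : ℝ, -(n : ℝ) < x → 1 ≤ t →
    c * t ^ (x - 1 / 2) * Real.exp (-(Real.pi / 2 * t)) ≤ ‖Gamma ((x : ℂ) + t * I)‖ := by
  induction n with
  | zero => exact ⟨cG, cG_pos, fun x t h0 ht => gam_all (by simpa using h0) ht⟩
  | succ n ih =>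
    obtain ⟨c, hc, h⟩ := ih
    refine ⟨min cG (c / (n + 2)), lt_min cG_pos (by positivity), ?_⟩
    intro x t hx ht
    have ht0 : 0 < t := by linarith
    rcases lt_or_ge 0 x with h0 | h0
    · refine le_trans ?_ (gam_all h0 ht)
      gcongr
      exact min_le_left _ _
    · push_cast at hx
      have h1 := h (x + 1) t (by linarith) ht
      have e : (((x + 1 : ℝ) : ℂ) + t * I) = ((x : ℂ) + t * I) + 1 := by push_cast; ring
      rw [e, Complex.Gamma_add_one _ (ne0 x t ht), norm_mul] at h1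
      have h2 : ‖(x : ℂ) + t * I‖ ≤ (n + 2) * t := by
        refine (nrm_le x t ht0.le).trans ?_
        rw [abs_of_nonpos h0]
        nlinarith
      have h3 : ‖(x : ℂ) + t * I‖ * ‖Gamma ((x : ℂ) + t * I)‖ ≤
          ((n + 2) * t) * ‖Gamma ((x : ℂ) + t * I)‖ :=
        mul_le_mul_of_nonneg_right h2 (norm_nonneg _)
      have h4 : t ^ (x + 1 - 1 / 2) = t * t ^ (x - 1 / 2) := by
        rw [show x + 1 - 1 / 2 = 1 + (x - 1 / 2) by ring, Real.rpow_add ht0, Real.rpow_one]
      rw [h4] at h1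
      have h5 := h1.trans h3
      have h6 : t * ((n + 2) * (c / (n + 2) * t ^ (x - 1 / 2) * Real.exp (-(Real.pi / 2 * t)))) ≤
          t * ((n + 2) * ‖Gamma ((x : ℂ) + t * I)‖) := by
        have e1 : t * ((n + 2) * (c / (n + 2) * t ^ (x - 1 / 2) * Real.exp (-(Real.pi / 2 * t)))) =
            c * (t * t ^ (x - 1 / 2)) * Real.exp (-(Real.pi / 2 * t)) := by
          field_simp
        rw [e1]
        linarith
      have h7 := le_of_mul_le_mul_left (le_of_mul_le_mul_left h6 ht0) (by positivity)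
      refine le_trans ?_ h7
      gcongr
      exact min_le_right _ _

lemma sin_low (x t : ℝ) : Real.sinh (Real.pi * t) ≤ ‖Complex.sin (Real.pi * ((x : ℂ) + t * I))‖ := by
  have h : Complex.sin (Real.pi * ((x : ℂ) + t * I)) =
      ⟨Real.sin (Real.pi * x) * Real.cosh (Real.pi * t),
        Real.cos (Real.pi * x) * Real.sinh (Real.pi * t)⟩ := by
    rw [show (Real.pi : ℂ) * ((x : ℂ) + t * I) =
      ((Real.pi * x : ℝ) : ℂ) + ((Real.pi * t : ℝ) : ℂ) * I by push_cast; ring,
      Complex.sin_add_mul_I]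
    rw [← ofReal_cos, ← ofReal_cosh, ← ofReal_sin, ← ofReal_sinh]
    have hx : ∀ a b c d : ℝ, ((a : ℂ) * (b : ℂ) + (c : ℂ) * (d : ℂ) * I) = ⟨a * b, c * d⟩ := by
      intro a b c d
      apply Complex.ext <;> simp
    exact hx _ _ _ _
  rw [h]
  refine le_trans (le_abs_self _) ?_
  rw [← Real.sqrt_sq_eq_abs]
  rw [Complex.norm_def]
  apply Real.sqrt_le_sqrt
  rw [Complex.normSq_mk]
  have h1 := Real.sin_sq_add_cos_sq (Real.pi * x)
  have h2 := Real.cosh_sq (Real.pi * t)
  nlinarith [sq_nonneg (Real.sin (Real.pi * x)), sq_nonneg (Real.cos (Real.pi * x))]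

/-- upper bound -/
lemma up (n : ℕ) : ∃ C : ℝ, 0 < C ∧ ∀ x t : ℝ, x < n + 1 → 1 ≤ t →
    ‖Gamma ((x : ℂ) + t * I)‖ ≤ C * t ^ (x - 1 / 2) * Real.exp (-(Real.pi / 2 * t)) := by
  have hcG := cG_pos
  have hπ := Real.pi_gt_three
  induction n with
  | zero =>
    refine ⟨4 * Real.pi / cG, by positivity, ?_⟩
    intro x t hx ht
    have ht0 : 0 < t := by linarith
    have hx1 : 0 < 1 - x := by simp at hx; linarith
    have h1 := gam_all hx1 ht
    have h2 := Complex.Gamma_mul_Gamma_one_sub ((x : ℂ) + t * I)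
    have h3 : ‖Gamma (1 - ((x : ℂ) + t * I))‖ = ‖Gamma (((1 - x : ℝ) : ℂ) + t * I)‖ := by
      have : (1 - ((x : ℂ) + t * I)) = (starRingEnd ℂ) (((1 - x : ℝ) : ℂ) + t * I) := by
        apply Complex.ext <;> simp
      rw [this, Complex.Gamma_conj, RCLike.norm_conj]
    have h4 := congrArg norm h2
    rw [norm_mul, norm_div, h3, Complex.norm_real, Real.norm_of_nonneg Real.pi_pos.le] at h4
    have hs := sin_low x t
    have hsh : Real.exp (Real.pi * t) / 4 ≤ Real.sinh (Real.pi * t) := by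
      rw [Real.sinh_eq]
      have e1 : (1 : ℝ) ≤ Real.pi * t := by nlinarith
      have e2 := Real.add_one_le_exp (Real.pi * t)
      have e3 : Real.exp (-(Real.pi * t)) ≤ 1 := Real.exp_le_one_iff.2 (by linarith)
      linarith
    have hsp : 0 < ‖Complex.sin (Real.pi * ((x : ℂ) + t * I))‖ := by
      have := Real.exp_pos (Real.pi * t)
      linarith
    -- G * G' * sin = π
    have h5 : ‖Gamma ((x : ℂ) + t * I)‖ * (cG * t ^ (1 - x - 1 / 2) *
        Real.exp (-(Real.pi / 2 * t))) * (Real.exp (Real.pi * t) / 4) ≤ Real.pi := by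
      calc _ ≤ ‖Gamma ((x : ℂ) + t * I)‖ * ‖Gamma (((1 - x : ℝ) : ℂ) + t * I)‖ *
            ‖Complex.sin (Real.pi * ((x : ℂ) + t * I))‖ := by
            gcongr
            exact hsh.trans hs
        _ = Real.pi := by
            rw [h4]
            field_simp
    have h6 : t ^ (1 - x - 1 / 2) * t ^ (x - 1 / 2) = 1 := by
      rw [← Real.rpow_add ht0, show 1 - x - 1 / 2 + (x - 1 / 2) = 0 by ring, Real.rpow_zero]
    have h7 : Real.exp (-(Real.pi / 2 * t)) * Real.exp (Real.pi * t) *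
        Real.exp (-(Real.pi / 2 * t)) = 1 := by
      rw [← Real.exp_add, ← Real.exp_add]
      have : -(Real.pi / 2 * t) + Real.pi * t + -(Real.pi / 2 * t) = 0 := by ring
      rw [this, Real.exp_zero]
    have h8 : ‖Gamma ((x : ℂ) + t * I)‖ = (‖Gamma ((x : ℂ) + t * I)‖ * (cG * t ^ (1 - x - 1 / 2) *
        Real.exp (-(Real.pi / 2 * t))) * (Real.exp (Real.pi * t) / 4)) * (4 / cG) *
        (t ^ (x - 1 / 2) * Real.exp (-(Real.pi / 2 * t))) := by
      have e1 : (‖Gamma ((x : ℂ) + t * I)‖ * (cG * t ^ (1 - x - 1 / 2) *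
        Real.exp (-(Real.pi / 2 * t))) * (Real.exp (Real.pi * t) / 4)) * (4 / cG) *
        (t ^ (x - 1 / 2) * Real.exp (-(Real.pi / 2 * t))) = ‖Gamma ((x : ℂ) + t * I)‖ *
        (t ^ (1 - x - 1 / 2) * t ^ (x - 1 / 2)) * (Real.exp (-(Real.pi / 2 * t)) *
        Real.exp (Real.pi * t) * Real.exp (-(Real.pi / 2 * t))) := by
        field_simp
      rw [e1, h6, h7, mul_one, mul_one]
    rw [h8]
    calc _ ≤ Real.pi * (4 / cG) * (t ^ (x - 1 / 2) * Real.exp (-(Real.pi / 2 * t))) := by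
          gcongr
      _ = _ := by ring
  | succ n ih =>
    obtain ⟨C, hC, h⟩ := ih
    refine ⟨max C (C * (n + 2)), lt_max_of_lt_left hC, ?_⟩
    intro x t hx ht
    have ht0 : 0 < t := by linarith
    rcases lt_or_ge x 1 with h0 | h0
    · refine le_trans (h x t (by have : (0:ℝ) ≤ n := Nat.cast_nonneg n; linarith) ht) ?_
      gcongr
      exact le_max_left _ _
    · push_cast at hx
      have h1 := h (x - 1) t (by linarith) ht
      have e : ((x : ℂ) + t * I) = (((x - 1 : ℝ) : ℂ) + t * I) + 1 := by push_cast; ring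
      rw [e, Complex.Gamma_add_one _ (ne0 (x - 1) t ht), norm_mul]
      have h2 : ‖((x - 1 : ℝ) : ℂ) + t * I‖ ≤ (n + 2) * t := by
        refine (nrm_le (x - 1) t ht0.le).trans ?_
        rw [abs_of_nonneg (by linarith)]
        nlinarith
      have h4 : t ^ (x - 1 / 2) = t * t ^ (x - 1 - 1 / 2) := by
        rw [show x - 1 / 2 = 1 + (x - 1 - 1 / 2) by ring, Real.rpow_add ht0, Real.rpow_one]
      rw [h4]
      calc ‖((x - 1 : ℝ) : ℂ) + t * I‖ * ‖Gamma (((x - 1 : ℝ) : ℂ) + t * I)‖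
          ≤ ((n + 2) * t) * (C * t ^ (x - 1 - 1 / 2) * Real.exp (-(Real.pi / 2 * t))) := by
            gcongr
        _ = (C * (n + 2)) * (t * t ^ (x - 1 - 1 / 2)) * Real.exp (-(Real.pi / 2 * t)) := by ring
        _ ≤ _ := by
            gcongr
            exact le_max_right _ _


end Pool.Agent.L7h13.XI
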