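import Pool.Agent.L7h13.XI.Xi

/-!
# Sizes of `a ξ(s + h) + b ξ(s - h)`
-/

set_option autoImplicit false

open Complex Set Metric

namespace Pool.Agent.L7h13.XI

open Pool.Agent.L7h13.SP H370

lemma xi_refl {s : ℂ} (hs : s.im ≠ 0) : ‖xi (1 - (starRingEnd ℂ) s)‖ = ‖xi s‖ := by
  rw [xi_one_sub, xi_conj hs, Complex.norm_conj]

lemma xi_up_pos {h₀ : ℝ} (h0 : 0 ≤ h₀) (h1 : h₀ < 1 / 2)
    (H : ∀ σ : ℝ, 1 / 2 + h₀ < σ → σ ≤ 1 → Exu σ 0) {ε : ℝ} (hε : 0 < ε) :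
    ∃ T₀ : ℝ, 2 ≤ T₀ ∧ ∀ w : ℂ, 1 / 2 ≤ w.re → w.re ≤ 5 → T₀ ≤ w.im →
      ‖xi w‖ ≤ w.im ^ (max h₀ (w.re - 1 / 2) / 2 + 7 / 4 + ε) * Real.exp (-(Real.pi / 4 * w.im)) := by
  obtain ⟨c, C, hc, hC, hs⟩ := xi_size 5
  obtain ⟨A, hA1, hA⟩ := Pool.Agent.Y757.LS.zeta_bounds (a := 2) (by norm_num)
  set σ₁ : ℝ := min 1 (1 / 2 + h₀ + ε / 2) with hσ₁
  have hσ1 : 1 / 2 + h₀ < σ₁ := lt_min (by linarith) (by linarith)
  have hσ2 : σ₁ ≤ 1 := min_le_left _ _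
  have hσ3 : σ₁ ≤ 1 / 2 + h₀ + ε / 2 := min_le_right _ _
  have hE := H σ₁ hσ1 hσ2
  obtain ⟨T₁, hT1, hR⟩ := hE.right le_rfl (by linarith) (by linarith) (ε := ε / 4) (by positivity)
  obtain ⟨T₂, hT2, hL⟩ := hE.left (by linarith) (by linarith) (ε := ε / 4) (by positivity)
  obtain ⟨T₃, hT3, hab⟩ := absorb (C * A + C) (ε := ε / 4) (by positivity)
  refine ⟨T₁ + T₂ + T₃ + 2, by linarith, fun w g1 g2 g3 => ?_⟩
  have ht0 : 0 < w.im := by linarith
  have k1 := (hs w (by push_cast; linarith) (by push_cast; linarith) (by linarith)).2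
  have k2 := hab w.im (by linarith)
  set t := w.im with ht
  have ht1 : 1 ≤ t := by linarith
  set x : ℝ := w.re - 1 / 2 with hx
  have hm1 : h₀ ≤ max h₀ x := le_max_left _ _
  have hm2 : x ≤ max h₀ x := le_max_right _ _
  -- the bound for zeta
  have hz : ‖riemannZeta w‖ ≤ A * t ^ ((max h₀ x - x) / 2 + ε / 2) := by
    have hpow : ∀ p q : ℝ, p ≤ q → t ^ p ≤ t ^ q := fun p q h => Real.rpow_le_rpow_of_exponent_le ht1 h
    rcases le_or_gt σ₁ w.re with h2 | h2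
    · rcases le_or_gt w.re 3 with h3 | h3
      · have h4 := hR w h2 h3 (by linarith)
        calc ‖riemannZeta w‖ ≤ 1 * t ^ (0 + ε / 4) := by rw [one_mul]; exact h4
          _ ≤ A * t ^ ((max h₀ x - x) / 2 + ε / 2) :=
              mul_le_mul hA1 (hpow _ _ (by linarith)) (by positivity) (by linarith)
      · have h4 := (hA w (by linarith)).1
        calc ‖riemannZeta w‖ ≤ A * 1 := by rw [mul_one]; exact h4
          _ ≤ A * t ^ ((max h₀ x - x) / 2 + ε / 2) :=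
              mul_le_mul_of_nonneg_left (Real.one_le_rpow ht1 (by linarith)) (by linarith)
    · have h4 := hL w (by linarith) h2.le (by linarith)
      calc ‖riemannZeta w‖ ≤ 1 * t ^ (0 + (σ₁ - w.re) / 2 + ε / 4) := by rw [one_mul]; exact h4
          _ ≤ A * t ^ ((max h₀ x - x) / 2 + ε / 2) :=
              mul_le_mul hA1 (hpow _ _ (by linarith)) (by positivity) (by linarith)
  unfold sz at k1
  rw [← ht, ← hx] at k1
  have hexp := Real.exp_pos (-(Real.pi / 4 * t))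
  calc ‖xi w‖ ≤ C * (t ^ (x / 2 + 7 / 4) * Real.exp (-(Real.pi / 4 * t))) * ‖riemannZeta w‖ := k1
    _ ≤ C * (t ^ (x / 2 + 7 / 4) * Real.exp (-(Real.pi / 4 * t))) *
        (A * t ^ ((max h₀ x - x) / 2 + ε / 2)) := mul_le_mul_of_nonneg_left hz (by positivity)
    _ = (C * A) * (t ^ (x / 2 + 7 / 4) * t ^ ((max h₀ x - x) / 2 + ε / 2)) *
        Real.exp (-(Real.pi / 4 * t)) := by ring
    _ ≤ t ^ (ε / 4) * (t ^ (x / 2 + 7 / 4) * t ^ ((max h₀ x - x) / 2 + ε / 2)) *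
        Real.exp (-(Real.pi / 4 * t)) := by
        gcongr
        linarith
    _ = t ^ (ε / 4 + (x / 2 + 7 / 4 + ((max h₀ x - x) / 2 + ε / 2))) *
        Real.exp (-(Real.pi / 4 * t)) := by
        rw [← Real.rpow_add ht0, ← Real.rpow_add ht0]
    _ ≤ t ^ (max h₀ x / 2 + 7 / 4 + ε) * Real.exp (-(Real.pi / 4 * t)) := by
        apply mul_le_mul_of_nonneg_right _ hexp.le
        exact Real.rpow_le_rpow_of_exponent_le ht1 (by linarith)

lemma xi_up {h₀ : ℝ} (h0 : 0 ≤ h₀) (h1 : h₀ < 1 / 2)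
    (H : ∀ σ : ℝ, 1 / 2 + h₀ < σ → σ ≤ 1 → Exu σ 0) {ε : ℝ} (hε : 0 < ε) :
    ∃ T₀ : ℝ, 2 ≤ T₀ ∧ ∀ w : ℂ, |w.re - 1 / 2| ≤ 9 / 2 → T₀ ≤ w.im →
      ‖xi w‖ ≤ w.im ^ (max h₀ |w.re - 1 / 2| / 2 + 7 / 4 + ε) * Real.exp (-(Real.pi / 4 * w.im)) := by
  obtain ⟨T₀, hT0, hT⟩ := xi_up_pos h0 h1 H hε
  refine ⟨T₀, hT0, fun w g1 g2 => ?_⟩
  rcases le_or_gt (1 / 2) w.re with h2 | h2
  · rw [abs_of_nonneg (by linarith)] at g1 ⊢
    exact hT w h2 (by linarith) g2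
  · rw [abs_of_neg (by linarith)] at g1 ⊢
    have h3 := hT (1 - (starRingEnd ℂ) w) (by
      rw [Complex.sub_re, Complex.one_re, Complex.conj_re]; linarith) (by
      rw [Complex.sub_re, Complex.one_re, Complex.conj_re]; linarith) (by
      rw [Complex.sub_im, Complex.one_im, Complex.conj_im]; linarith)
    rw [xi_refl (by intro h; linarith)] at h3
    rw [Complex.sub_re, Complex.one_re, Complex.conj_re, Complex.sub_im, Complex.one_im,
      Complex.conj_im] at h3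
    have e1 : 1 - w.re - 1 / 2 = -(w.re - 1 / 2) := by ring
    have e2 : 0 - -w.im = w.im := by ring
    rwa [e1, e2] at h3

/-- `a ξ(s + h) + b ξ(s - h)` -/
noncomputable def FF (a b : ℂ) (h : ℝ) (s : ℂ) : ℂ := a * xi (s + h) + b * xi (s - h)

lemma ff_an (a b : ℂ) (h : ℝ) (s : ℂ) : AnalyticAt ℂ (FF a b h) s := by
  have : Differentiable ℂ (FF a b h) := by
    unfold FF
    have := xi_diff
    fun_prop
  exact this.analyticAt s

/-- the expected size -/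
noncomputable def sF (h : ℝ) (z : ℂ) : ℝ :=
  z.im ^ ((z.re - 1 / 2 + h) / 2 + 7 / 4) * Real.exp (-(Real.pi / 4 * z.im))

lemma ff_up (a b : ℂ) {h : ℝ} (h0 : 0 < h) (h1 : h < 1 / 2)
    (H : ∀ σ : ℝ, 1 / 2 + h < σ → σ ≤ 1 → Exu σ 0) {ε : ℝ} (hε : 0 < ε) :
    ∃ T₀ : ℝ, 2 ≤ T₀ ∧ ∀ z : ℂ, 1 / 2 ≤ z.re → z.re ≤ 4 → T₀ ≤ z.im →
      ‖FF a b h z‖ ≤ z.im ^ ε * sF h z := by
  obtain ⟨T₀, hT0, hT⟩ := xi_up h0.le h1 H (ε := ε / 2) (by positivity)
  obtain ⟨T₁, hT1, hab⟩ := absorb (‖a‖ + ‖b‖) (ε := ε / 2) (by positivity)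
  refine ⟨T₀ + T₁, by linarith, fun z g1 g2 g3 => ?_⟩
  have ht0 : 0 < z.im := by linarith
  have k := hab z.im (by linarith)
  have p1 := hT (z + h) (by
    rw [Complex.add_re, Complex.ofReal_re, abs_le]; constructor <;> linarith) (by
    rw [Complex.add_im, Complex.ofReal_im]; linarith)
  have p2 := hT (z - h) (by
    rw [Complex.sub_re, Complex.ofReal_re, abs_le]; constructor <;> linarith) (by
    rw [Complex.sub_im, Complex.ofReal_im]; linarith)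
  rw [Complex.add_re, Complex.ofReal_re, Complex.add_im, Complex.ofReal_im, add_zero] at p1
  rw [Complex.sub_re, Complex.ofReal_re, Complex.sub_im, Complex.ofReal_im, sub_zero] at p2
  set t := z.im with ht
  have ht1 : 1 ≤ t := by linarith
  set x : ℝ := z.re - 1 / 2 with hx
  have m1 : max h |z.re + h - 1 / 2| ≤ x + h := by
    apply max_le (by linarith)
    rw [abs_le]; constructor <;> linarith
  have m2 : max h |z.re - h - 1 / 2| ≤ x + h := by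
    apply max_le (by linarith)
    rw [abs_le]; constructor <;> linarith
  have hexp := Real.exp_pos (-(Real.pi / 4 * t))
  have hB : ∀ m : ℝ, m ≤ x + h → t ^ (m / 2 + 7 / 4 + ε / 2) * Real.exp (-(Real.pi / 4 * t)) ≤
      t ^ ((x + h) / 2 + 7 / 4 + ε / 2) * Real.exp (-(Real.pi / 4 * t)) := by
    intro m hm
    apply mul_le_mul_of_nonneg_right _ hexp.le
    exact Real.rpow_le_rpow_of_exponent_le ht1 (by linarith)
  have q1 := p1.trans (hB _ m1)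
  have q2 := p2.trans (hB _ m2)
  unfold FF sF
  rw [← ht, ← hx]
  set B := t ^ ((x + h) / 2 + 7 / 4 + ε / 2) * Real.exp (-(Real.pi / 4 * t)) with hBdef
  calc ‖a * xi (z + h) + b * xi (z - h)‖ ≤ ‖a‖ * ‖xi (z + h)‖ + ‖b‖ * ‖xi (z - h)‖ := by
        refine (norm_add_le _ _).trans ?_
        rw [norm_mul, norm_mul]
    _ ≤ ‖a‖ * B + ‖b‖ * B := by gcongr
    _ = (‖a‖ + ‖b‖) * B := by ring
    _ ≤ t ^ (ε / 2) * B := mul_le_mul_of_nonneg_right k (by positivity)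
    _ = t ^ ε * (t ^ ((x + h) / 2 + 7 / 4) * Real.exp (-(Real.pi / 4 * t))) := by
        rw [hBdef, ← mul_assoc, ← mul_assoc, ← Real.rpow_add ht0, ← Real.rpow_add ht0]
        congr 2
        ring

/-- the exact order to the right -/
lemma ff_cen {a : ℂ} (ha : a ≠ 0) (b : ℂ) {h : ℝ} (h0 : 0 < h) (h1 : h < 1 / 2) (n : ℕ) :
    ∃ c C T₀ : ℝ, 0 < c ∧ 0 < C ∧ 2 ≤ T₀ ∧ ∀ z : ℂ, 7 / 4 ≤ z.re → z.re ≤ n → T₀ ≤ z.im →
      c * sF h z ≤ ‖FF a b h z‖ ∧ ‖FF a b h z‖ ≤ C * sF h z := by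
  obtain ⟨c, C, hc, hC, hs⟩ := xi_size (n + 1)
  obtain ⟨A, hA1, hA⟩ := Pool.Agent.Y757.LS.zeta_bounds (a := 5 / 4) (by norm_num)
  have ha0 : 0 < ‖a‖ := norm_pos_iff.2 ha
  have hb0 := norm_nonneg b
  have hA0 : 0 < A := by linarith
  obtain ⟨T₁, hT1, hab⟩ := absorb (‖b‖ * (C * A) / (‖a‖ * (c / A) / 2)) (ε := h) h0
  refine ⟨‖a‖ * (c / A) / 2, ‖a‖ * (C * A) + ‖b‖ * (C * A), T₁ + 2, by positivity, by positivity,
    by linarith, fun z g1 g2 g3 => ?_⟩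
  have ht0 : 0 < z.im := by linarith
  have k := hab z.im (by linarith)
  have hn : (0:ℝ) ≤ n := Nat.cast_nonneg n
  have r1 : (z + h).re = z.re + h := by simp
  have r2 : (z - h).re = z.re - h := by simp
  have i1 : (z + h).im = z.im := by simp
  have i2 : (z - h).im = z.im := by simp
  obtain ⟨p1, p2⟩ := hs (z + h) (by rw [r1]; push_cast; linarith) (by rw [r1]; push_cast; linarith)
    (by rw [i1]; linarith)
  obtain ⟨_, p3⟩ := hs (z - h) (by rw [r2]; push_cast; linarith) (by rw [r2]; push_cast; linarith)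
    (by rw [i2]; linarith)
  obtain ⟨z1, z2⟩ := hA (z + h) (by rw [r1]; linarith)
  obtain ⟨z3, _⟩ := hA (z - h) (by rw [r2]; linarith)
  have s1 : sz (z + h) = sF h z := by
    unfold sz sF
    rw [r1, i1]
    congr 2
    ring
  have s2 : sz (z - h) = z.im ^ (-h) * sF h z := by
    unfold sz sF
    rw [r2, i2, ← mul_assoc, ← Real.rpow_add ht0]
    congr 2
    ring
  rw [s1] at p1 p2
  rw [s2] at p3
  set S := sF h z with hS
  have hS0 : 0 < S := by rw [hS]; unfold sF; positivity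
  set t := z.im with ht
  have hth : 0 < t ^ h := by positivity
  have hth1 : 1 ≤ t ^ h := Real.one_le_rpow (by linarith) h0.le
  have l1 : c / A * S ≤ ‖xi (z + h)‖ := by
    refine le_trans ?_ p1
    calc c / A * S = c * S * (1 / A) := by ring
      _ ≤ _ := mul_le_mul_of_nonneg_left z2 (by positivity)
  have l2 : ‖xi (z + h)‖ ≤ C * A * S := by
    refine p2.trans ?_
    calc C * S * ‖riemannZeta (z + h)‖ ≤ C * S * A := mul_le_mul_of_nonneg_left z1 (by positivity)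
      _ = _ := by ring
  have l3 : ‖xi (z - h)‖ ≤ C * A * (t ^ (-h) * S) := by
    refine p3.trans ?_
    calc C * (t ^ (-h) * S) * ‖riemannZeta (z - h)‖ ≤ C * (t ^ (-h) * S) * A :=
          mul_le_mul_of_nonneg_left z3 (by positivity)
      _ = _ := by ring
  have hinv : t ^ (-h) = (t ^ h)⁻¹ := Real.rpow_neg ht0.le h
  have l4 : ‖b‖ * ‖xi (z - h)‖ ≤ ‖a‖ * (c / A) / 2 * S := by
    rw [div_le_iff₀ (by positivity)] at k
    calc ‖b‖ * ‖xi (z - h)‖ ≤ ‖b‖ * (C * A * (t ^ (-h) * S)) := mul_le_mul_of_nonneg_left l3 hb0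
      _ = (‖b‖ * (C * A)) * (t ^ h)⁻¹ * S := by rw [hinv]; ring
      _ ≤ (t ^ h * (‖a‖ * (c / A) / 2)) * (t ^ h)⁻¹ * S := by gcongr
      _ = _ := by field_simp
  have l5 : ‖b‖ * ‖xi (z - h)‖ ≤ ‖b‖ * (C * A) * S := by
    calc ‖b‖ * ‖xi (z - h)‖ ≤ ‖b‖ * (C * A * (t ^ (-h) * S)) := mul_le_mul_of_nonneg_left l3 hb0
      _ ≤ ‖b‖ * (C * A * (1 * S)) := by
          gcongr
          rw [hinv]
          exact inv_le_one_of_one_le₀ hth1
      _ = _ := by ring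
  have l6 : ‖a‖ * (c / A * S) ≤ ‖a‖ * ‖xi (z + h)‖ := mul_le_mul_of_nonneg_left l1 ha0.le
  have l7 : ‖a‖ * ‖xi (z + h)‖ ≤ ‖a‖ * (C * A * S) := mul_le_mul_of_nonneg_left l2 ha0.le
  unfold FF
  constructor
  · have := norm_sub_norm_le (a * xi (z + h)) (-(b * xi (z - h)))
    rw [sub_neg_eq_add, norm_neg, norm_mul, norm_mul] at this
    have e : ‖a‖ * (c / A) / 2 * S = ‖a‖ * (c / A * S) - ‖a‖ * (c / A) / 2 * S := by ring
    linarith
  · refine (norm_add_le _ _).trans ?_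
    rw [norm_mul, norm_mul]
    have e : (‖a‖ * (C * A) + ‖b‖ * (C * A)) * S = ‖a‖ * (C * A * S) + ‖b‖ * (C * A) * S := by ring
    linarith

end Pool.Agent.L7h13.XI
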