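import Pool.Agent.L7h13.XI.Gam
import Pool.Agent.L7h13.SP.Fin

/-!
# The function ξ and its size
-/

set_option autoImplicit false

open Complex Set Metric

namespace Pool.Agent.L7h13.XI

open Pool.Agent.L7h13.SP H370

/-- Riemann's `ξ(s) = s (s - 1) π^{-s/2} Γ(s/2) ζ(s) / 2`, an entire function -/
noncomputable def xi (s : ℂ) : ℂ := (s * (s - 1) * completedRiemannZeta₀ s + 1) / 2

lemma xi_diff : Differentiable ℂ xi := by
  unfold xi
  have := differentiable_completedZeta₀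
  fun_prop

lemma xi_an (s : ℂ) : AnalyticAt ℂ xi s := xi_diff.analyticAt s

lemma xi_one_sub (s : ℂ) : xi (1 - s) = xi s := by
  unfold xi
  rw [completedRiemannZeta₀_one_sub]
  ring

lemma xi_completed {s : ℂ} (h0 : s ≠ 0) (h1 : s ≠ 1) : xi s = s * (s - 1) / 2 * completedRiemannZeta s := by
  unfold xi
  rw [completedRiemannZeta_eq]
  have h2 : 1 - s ≠ 0 := sub_ne_zero.2 (Ne.symm h1)
  field_simp
  ring

lemma ne_of_im {s : ℂ} (hs : s.im ≠ 0) : s ≠ 0 ∧ s ≠ 1 ∧ Gammaℝ s ≠ 0 := by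
  refine ⟨?_, ?_, ?_⟩
  · rintro rfl; simp at hs
  · rintro rfl; simp at hs
  · intro h
    rw [Gammaℝ_eq_zero_iff] at h
    obtain ⟨n, hn⟩ := h
    apply hs
    rw [hn]
    simp

lemma xi_zeta {s : ℂ} (hs : s.im ≠ 0) : xi s = s * (s - 1) / 2 * (Gammaℝ s * riemannZeta s) := by
  obtain ⟨h0, h1, h2⟩ := ne_of_im hs
  rw [xi_completed h0 h1, riemannZeta_def_of_ne_zero h0]
  field_simp

lemma gammaR_conj (s : ℂ) : Gammaℝ ((starRingEnd ℂ) s) = (starRingEnd ℂ) (Gammaℝ s) := by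
  rw [Gammaℝ_def, Gammaℝ_def, map_mul, ← Complex.Gamma_conj]
  congr 1
  · have h := Complex.cpow_conj (Real.pi : ℂ) (-s / 2) (by
      rw [Complex.arg_ofReal_of_nonneg Real.pi_pos.le]; exact Real.pi_pos.ne)
    rw [Complex.conj_ofReal] at h
    rw [← h]
    congr 1
    simp [map_ofNat]
  · congr 1
    simp [map_ofNat]

lemma xi_conj {s : ℂ} (hs : s.im ≠ 0) : xi ((starRingEnd ℂ) s) = (starRingEnd ℂ) (xi s) := by
  rw [xi_zeta hs, xi_zeta (by rw [Complex.conj_im]; exact neg_ne_zero.2 hs), gammaR_conj,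
    riemannZeta_conj]
  simp [map_ofNat]

/-- the size of the factor of zeta in `ξ` -/
noncomputable def sz (s : ℂ) : ℝ := s.im ^ ((s.re - 1 / 2) / 2 + 7 / 4) * Real.exp (-(Real.pi / 4 * s.im))

lemma sz_pos {s : ℂ} (hs : 0 < s.im) : 0 < sz s := by
  unfold sz; positivity

lemma xi_size (n : ℕ) : ∃ c C : ℝ, 0 < c ∧ 0 < C ∧ ∀ s : ℂ, -(n : ℝ) ≤ s.re → s.re ≤ n → 2 ≤ s.im →
    c * sz s * ‖riemannZeta s‖ ≤ ‖xi s‖ ∧ ‖xi s‖ ≤ C * sz s * ‖riemannZeta s‖ := by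
  obtain ⟨c₁, hc1, h1⟩ := low (n + 1)
  obtain ⟨C₁, hC1, h2⟩ := up (n + 1)
  set m : ℝ := (n : ℝ) with hm
  have hm0 : 0 ≤ m := Nat.cast_nonneg n
  set P : ℝ := Real.pi ^ (m / 2) with hP
  have hπ : 0 < Real.pi := Real.pi_pos
  have hP0 : 0 < P := by positivity
  set Q : ℝ := 2 ^ (m / 2 + 1) with hQ
  have hQ0 : 0 < Q := by positivity
  refine ⟨1 / 2 * (P⁻¹ * (c₁ * Q⁻¹)), (m + 2) ^ 2 / 2 * (P * (C₁ * Q)), by positivity, by positivity,
    fun s g1 g2 g3 => ?_⟩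
  set t := s.im with ht
  have ht0 : 0 < t := by linarith
  have hs : s.im ≠ 0 := by rw [← ht]; exact ht0.ne'
  rw [xi_zeta hs]
  -- the polynomial factor
  have a1 : t ≤ ‖s‖ := (le_abs_self _).trans (Complex.abs_im_le_norm s)
  have a2 : t ≤ ‖s - 1‖ := by
    have := (le_abs_self _).trans (Complex.abs_im_le_norm (s - 1))
    rwa [Complex.sub_im, Complex.one_im, sub_zero] at this
  have hre : |s.re| ≤ m := abs_le.2 ⟨g1, g2⟩
  have a3 : ‖s‖ ≤ (m + 2) * t := by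
    refine (Complex.norm_le_abs_re_add_abs_im s).trans ?_
    rw [← ht, abs_of_pos ht0]
    nlinarith
  have a4 : ‖s - 1‖ ≤ (m + 2) * t := by
    refine (norm_sub_le _ _).trans ?_
    rw [norm_one]
    have := Complex.norm_le_abs_re_add_abs_im s
    rw [← ht, abs_of_pos ht0] at this
    nlinarith
  -- the power of pi
  have b1 : ‖(Real.pi : ℂ) ^ (-s / 2)‖ = Real.pi ^ (-(s.re / 2)) := by
    rw [Complex.norm_cpow_eq_rpow_re_of_pos hπ]
    congr 1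
    simp
    ring
  have hπ1 : 1 ≤ Real.pi := by linarith [Real.pi_gt_three]
  have b2 : Real.pi ^ (-(s.re / 2)) ≤ P := Real.rpow_le_rpow_of_exponent_le hπ1 (by linarith)
  have b3 : P⁻¹ ≤ Real.pi ^ (-(s.re / 2)) := by
    rw [hP, ← Real.rpow_neg hπ.le]
    exact Real.rpow_le_rpow_of_exponent_le hπ1 (by linarith)
  -- the Gamma factor
  have e1 : s / 2 = ((s.re / 2 : ℝ) : ℂ) + ((t / 2 : ℝ) : ℂ) * I := by
    apply Complex.ext <;> simp [ht]
  have d1 := h1 (s.re / 2) (t / 2) (by push_cast; linarith) (by linarith)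
  have d2 := h2 (s.re / 2) (t / 2) (by push_cast; linarith) (by linarith)
  rw [← e1] at d1 d2
  have d3 : (t / 2) ^ (s.re / 2 - 1 / 2) = t ^ (s.re / 2 - 1 / 2) * 2 ^ (-(s.re / 2 - 1 / 2)) := by
    rw [Real.div_rpow ht0.le (by norm_num), Real.rpow_neg (by norm_num)]
    rfl
  have d4 : (2:ℝ) ^ (-(s.re / 2 - 1 / 2)) ≤ Q :=
    Real.rpow_le_rpow_of_exponent_le (by norm_num) (by linarith)
  have d5 : Q⁻¹ ≤ (2:ℝ) ^ (-(s.re / 2 - 1 / 2)) := by
    rw [hQ, ← Real.rpow_neg (by norm_num)]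
    exact Real.rpow_le_rpow_of_exponent_le (by norm_num) (by linarith)
  have d6 : sz s = t ^ 2 * (t ^ (s.re / 2 - 1 / 2) * Real.exp (-(Real.pi / 2 * (t / 2)))) := by
    unfold sz
    rw [← ht, ← mul_assoc]
    congr 1
    · rw [← Real.rpow_natCast, ← Real.rpow_add ht0]
      congr 1
      push_cast
      ring
    · congr 1
      ring
  have hz := norm_nonneg (riemannZeta s)
  set W := t ^ (s.re / 2 - 1 / 2) * Real.exp (-(Real.pi / 2 * (t / 2))) with hW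
  have hW0 : 0 < W := by positivity
  have f1 : c₁ * Q⁻¹ * W ≤ ‖Gamma (s / 2)‖ := by
    refine le_trans ?_ d1
    rw [d3, hW]
    calc c₁ * Q⁻¹ * (t ^ (s.re / 2 - 1 / 2) * Real.exp (-(Real.pi / 2 * (t / 2))))
        ≤ c₁ * 2 ^ (-(s.re / 2 - 1 / 2)) * (t ^ (s.re / 2 - 1 / 2) *
          Real.exp (-(Real.pi / 2 * (t / 2)))) := by gcongr
      _ = _ := by ring
  have f2 : ‖Gamma (s / 2)‖ ≤ C₁ * Q * W := by
    refine le_trans d2 ?_
    rw [d3, hW]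
    calc C₁ * (t ^ (s.re / 2 - 1 / 2) * 2 ^ (-(s.re / 2 - 1 / 2))) * Real.exp (-(Real.pi / 2 * (t / 2)))
        = C₁ * 2 ^ (-(s.re / 2 - 1 / 2)) * (t ^ (s.re / 2 - 1 / 2) *
          Real.exp (-(Real.pi / 2 * (t / 2)))) := by ring
      _ ≤ _ := by gcongr
  have hnorm : ‖s * (s - 1) / 2 * (Gammaℝ s * riemannZeta s)‖ =
      ‖s‖ * ‖s - 1‖ / 2 * (Real.pi ^ (-(s.re / 2)) * ‖Gamma (s / 2)‖) * ‖riemannZeta s‖ := by
    rw [Gammaℝ_def, norm_mul, norm_div, norm_mul, norm_mul, norm_mul, b1]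
    have : ‖(2:ℂ)‖ = 2 := by simp
    rw [this]
    ring
  rw [hnorm, d6]
  constructor
  · apply mul_le_mul_of_nonneg_right _ hz
    calc 1 / 2 * (P⁻¹ * (c₁ * Q⁻¹)) * (t ^ 2 * W) = t * t / 2 * (P⁻¹ * (c₁ * Q⁻¹ * W)) := by ring
      _ ≤ _ := by gcongr
  · apply mul_le_mul_of_nonneg_right _ hz
    calc ‖s‖ * ‖s - 1‖ / 2 * (Real.pi ^ (-(s.re / 2)) * ‖Gamma (s / 2)‖)
        ≤ ((m + 2) * t) * ((m + 2) * t) / 2 * (P * (C₁ * Q * W)) := by gcongr
      _ = _ := by ring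

end Pool.Agent.L7h13.XI
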