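import Pool.Agent.L7h13.XI.Far

/-!
# Zeros of `a ξ(s + h) + b ξ(s - h)` and the size of zeta
-/

set_option autoImplicit false

open Complex Set Metric

namespace Pool.Agent.L7h13.XI

open Pool.Agent.L7h13.SP H370

/-- the twist -/
noncomputable def tx (h L : ℝ) (z : ℂ) : ℂ :=
  Complex.exp (-I * ((Real.pi / 4 : ℝ) : ℂ) * z - ((z - 1 / 2 + h) / 2 + 7 / 4) * L)

lemma tx_an (h L : ℝ) (z : ℂ) : AnalyticAt ℂ (tx h L) z := by
  unfold tx
  fun_prop

lemma tx_ne (h L : ℝ) (z : ℂ) : tx h L z ≠ 0 := Complex.exp_ne_zero _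

lemma tx_norm {T : ℝ} (hT : 0 < T) (h : ℝ) (z : ℂ) : ‖tx h (Real.log T) z‖ =
    Real.exp (Real.pi / 4 * z.im) * T ^ (-((z.re - 1 / 2 + h) / 2 + 7 / 4)) := by
  unfold tx
  rw [Complex.norm_exp, Real.rpow_def_of_pos hT, ← Real.exp_add]
  congr 1
  rw [Complex.sub_re, Complex.re_mul_ofReal]
  have e1 : (-I * ((Real.pi / 4 : ℝ) : ℂ) * z).re = Real.pi / 4 * z.im := by
    simp only [Complex.mul_re, Complex.mul_im, Complex.neg_re, Complex.neg_im, Complex.I_re,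
      Complex.I_im, Complex.ofReal_re, Complex.ofReal_im]
    ring
  have e2 : ((z - 1 / 2 + h) / 2 + 7 / 4).re = (z.re - 1 / 2 + h) / 2 + 7 / 4 := by
    simp
  rw [e1, e2]
  ring

lemma sF_tx {T : ℝ} (hT : 0 < T) (h : ℝ) {z : ℂ} (hz : 0 < z.im) : sF h z * ‖tx h (Real.log T) z‖ =
    (z.im / T) ^ ((z.re - 1 / 2 + h) / 2 + 7 / 4) := by
  rw [tx_norm hT, sF, Real.div_rpow hz.le hT.le, Real.rpow_neg hT.le, Real.exp_neg]
  have := (Real.exp_pos (Real.pi / 4 * z.im)).ne'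
  field_simp

lemma sF_tx_le {T : ℝ} (hT : 0 < T) {h : ℝ} (h0 : 0 < h) (h1 : h < 1 / 2) {z : ℂ} (hz : 0 < z.im)
    (hz2 : z.im ≤ 2 * T) (g1 : 1 / 2 ≤ z.re) (g2 : z.re ≤ 4) :
    sF h z * ‖tx h (Real.log T) z‖ ≤ 16 := by
  rw [sF_tx hT h hz]
  have h2 : z.im / T ≤ 2 := by rw [div_le_iff₀ hT]; exact hz2
  calc (z.im / T) ^ ((z.re - 1 / 2 + h) / 2 + 7 / 4) ≤ 2 ^ ((z.re - 1 / 2 + h) / 2 + 7 / 4) :=
        Real.rpow_le_rpow (by positivity) h2 (by linarith)
    _ ≤ 2 ^ (4:ℝ) := Real.rpow_le_rpow_of_exponent_le (by norm_num) (by linarith)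
    _ = 16 := by norm_num

lemma sF_tx_one {T : ℝ} (hT : 0 < T) {h : ℝ} {z : ℂ} (hz : z.im = T) :
    sF h z * ‖tx h (Real.log T) z‖ = 1 := by
  rw [sF_tx hT h (by rw [hz]; exact hT), hz, div_self hT.ne', Real.one_rpow]

lemma sF_pos {h : ℝ} {z : ℂ} (hz : 0 < z.im) : 0 < sF h z := by
  unfold sF; positivity

/-- few zeros to the right -/
lemma ff_jensen {a : ℂ} (ha : a ≠ 0) (b : ℂ) {h : ℝ} (h0 : 0 < h) (h1 : h < 1 / 2)
    (H : ∀ σ : ℝ, 1 / 2 + h < σ → σ ≤ 1 → Exu σ 0) {δ : ℝ} (hδ : 0 < δ) (hδ1 : δ ≤ 1 / 10) {ε : ℝ}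
    (hε : 0 < ε) : FewU (FF a b h) (Ici (1 / 2 + δ)) (δ / 4) ε := by
  classical
  set R : ℝ := 3 / 2 - δ / 2 with hR
  obtain ⟨η, hη, hJ⟩ := gjensen (R := R) (δ := δ / 4) (by positivity) (by linarith) hε
  obtain ⟨T₁, hT1, hG⟩ := ff_up a b h0 h1 H (ε := η / 2) (by positivity)
  obtain ⟨c, C, T₂, hc0, hC0, hT2, hcen⟩ := ff_cen ha b h0 h1 4
  obtain ⟨T₃, hT31, hT3⟩ := absorb (16 * 2 ^ (η / 2)) (ε := η / 2) (by positivity)
  obtain ⟨T₄, hT41, hT4⟩ := absorb (1 / c) (ε := η) (by positivity)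
  obtain ⟨T₅, hT5, hnz⟩ := ff_nz ha b h0 h1
  refine ⟨T₁ + T₂ + T₃ + T₄ + T₅ + 5, fun T hT S hS => ?_⟩
  have hT0 : 0 < T := by linarith
  have hl1 : 1 ≤ Real.log T := by
    rw [Real.le_log_iff_exp_le hT0]
    have := Real.exp_one_lt_d9
    linarith
  set L := Real.log T with hL
  have hexp : ∀ p : ℝ, Real.exp (p * L) = T ^ p := fun p => by
    rw [Real.rpow_def_of_pos hT0, mul_comm]
  set f : ℂ → ℂ := fun z => FF a b h z * tx h L z with hf
  set c₀ : ℂ := ⟨2, T⟩ with hc₀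
  have hball : ∀ z ∈ closedBall c₀ R, 1 / 2 + δ / 2 ≤ z.re ∧ z.re ≤ 4 ∧ T - 2 ≤ z.im ∧ z.im ≤ T + 2 := by
    intro z hz
    rw [mem_closedBall, dist_eq_norm] at hz
    have g1 := abs_le.1 ((Complex.abs_re_le_norm (z - c₀)).trans hz)
    have g2 := abs_le.1 ((Complex.abs_im_le_norm (z - c₀)).trans hz)
    rw [Complex.sub_re] at g1
    rw [Complex.sub_im] at g2
    simp only [hc₀] at g1 g2
    refine ⟨by linarith, by linarith, by linarith, by linarith⟩
  rw [← Finset.sum_filter_add_sum_filter_not S (fun z => z.re ≤ 7 / 4)]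
  have hz0 : ∑ z ∈ S.filter (fun z => ¬ z.re ≤ 7 / 4), (mult (FF a b h) z : ℝ) = 0 := by
    apply Finset.sum_eq_zero
    intro z hz
    rw [Finset.mem_filter, not_le] at hz
    have g2 := abs_le.1 (hS z hz.1).2
    rw [mult_pos_zero (ff_an a b h z) (hnz z hz.2.le (by linarith))]
    exact Nat.cast_zero
  rw [hz0, add_zero]
  have key := hJ L (by linarith) f c₀ (by
    intro z hz
    exact (ff_an a b h z).mul (tx_an h L z)) (by
    intro z hz
    obtain ⟨g1, g2, g3, g4⟩ := hball z hz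
    have g5 := hG z (by linarith) g2 (by linarith)
    have hz0 : 0 < z.im := by linarith
    have g6 := sF_tx_le hT0 h0 h1 hz0 (by linarith) (by linarith) g2
    rw [← hL] at g6
    rw [hexp]
    simp only [hf]
    rw [norm_mul]
    calc ‖FF a b h z‖ * ‖tx h L z‖ ≤ (z.im ^ (η / 2) * sF h z) * ‖tx h L z‖ :=
          mul_le_mul_of_nonneg_right g5 (norm_nonneg _)
      _ = z.im ^ (η / 2) * (sF h z * ‖tx h L z‖) := by ring
      _ ≤ (2 * T) ^ (η / 2) * 16 := by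
          apply mul_le_mul _ g6 (mul_nonneg (sF_pos hz0).le (norm_nonneg _)) (by positivity)
          exact Real.rpow_le_rpow hz0.le (by linarith) (by positivity)
      _ = (16 * 2 ^ (η / 2)) * T ^ (η / 2) := by
          rw [Real.mul_rpow (by norm_num) hT0.le]; ring
      _ ≤ T ^ (η / 2) * T ^ (η / 2) := mul_le_mul_of_nonneg_right (hT3 T (by linarith)) (by positivity)
      _ = T ^ η := by rw [← Real.rpow_add hT0]; congr 1; ring) (by
    have g1 := (hcen c₀ (by simp only [hc₀]; norm_num) (by simp only [hc₀]; norm_num)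
      (by simp only [hc₀]; linarith)).1
    have g2 := sF_tx_one hT0 (h := h) (z := c₀) rfl
    rw [← hL] at g2
    simp only [hf]
    rw [norm_mul, show -(η * L) = (-η) * L by ring, hexp]
    have g3 : T ^ (-η) ≤ c := by
      have g4 := hT4 T (by linarith)
      rw [Real.rpow_neg hT0.le]
      rw [inv_le_comm₀ (by positivity) hc0, ← one_div]
      exact g4
    calc T ^ (-η) ≤ c * 1 := by rw [mul_one]; exact g3
      _ = (c * sF h c₀) * ‖tx h L c₀‖ := by rw [← g2]; ring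
      _ ≤ _ := mul_le_mul_of_nonneg_right g1 (norm_nonneg _))
    (S.filter fun z => z.re ≤ 7 / 4) (by
      intro z hz
      rw [Finset.mem_filter] at hz
      obtain ⟨g1, g2⟩ := hS z hz.1
      simp only [mem_Ici] at g1
      rw [mem_closedBall, dist_eq_norm]
      refine (Complex.norm_le_abs_re_add_abs_im _).trans ?_
      rw [Complex.sub_re, Complex.sub_im]
      simp only [hc₀]
      have g3 : |z.re - 2| ≤ 3 / 2 - δ := by
        rw [abs_le]
        constructor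
        · linarith
        · linarith [hz.2]
      linarith)
  refine le_trans (le_of_eq ?_) key
  apply Finset.sum_congr rfl
  intro z hz
  rw [hf, mult_mul (ff_an a b h z) (tx_an h L z) (tx_ne h L z)]

/-- the crude bound -/
lemma ff_crude (a b : ℂ) {h : ℝ} (h0 : 0 < h) (h1 : h < 1 / 2) :
    ∃ T₀ : ℝ, 2 ≤ T₀ ∧ ∀ z : ℂ, 1 / 2 ≤ z.re → z.re ≤ 4 → T₀ ≤ z.im →
      ‖FF a b h z‖ ≤ z.im ^ (6:ℝ) * sF h z := by
  obtain ⟨c, C, hc, hC, hs⟩ := xi_size 5
  obtain ⟨D, hD1, hD⟩ := zgrow 5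
  obtain ⟨T₁, hT1, hab⟩ := absorb ((‖a‖ + ‖b‖) * (C * D)) (ε := 1) one_pos
  refine ⟨T₁ + 2, by linarith, fun z g1 g2 g3 => ?_⟩
  have ht0 : 0 < z.im := by linarith
  have k := hab z.im (by linarith)
  have r1 : (z + h).re = z.re + h := by simp
  have r2 : (z - h).re = z.re - h := by simp
  have i1 : (z + h).im = z.im := by simp
  have i2 : (z - h).im = z.im := by simp
  have p2 := (hs (z + h) (by rw [r1]; push_cast; linarith) (by rw [r1]; push_cast; linarith)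
    (by rw [i1]; linarith)).2
  have p3 := (hs (z - h) (by rw [r2]; push_cast; linarith) (by rw [r2]; push_cast; linarith)
    (by rw [i2]; linarith)).2
  have z1 := hD (z + h) (by rw [r1]; linarith) (by rw [r1]; linarith) (by rw [i1]; linarith)
  have z2 := hD (z - h) (by rw [r2]; linarith) (by rw [r2]; linarith) (by rw [i2]; linarith)
  rw [i1] at z1
  rw [i2] at z2
  have hexp := Real.exp_pos (-(Real.pi / 4 * z.im))
  have s1 : sz (z + h) ≤ sF h z := by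
    unfold sz sF
    rw [r1, i1]
    apply mul_le_mul_of_nonneg_right _ hexp.le
    exact Real.rpow_le_rpow_of_exponent_le (by linarith) (by linarith)
  have s2 : sz (z - h) ≤ sF h z := by
    unfold sz sF
    rw [r2, i2]
    apply mul_le_mul_of_nonneg_right _ hexp.le
    exact Real.rpow_le_rpow_of_exponent_le (by linarith) (by linarith)
  have hS0 := sF_pos (h := h) ht0
  set S := sF h z
  set t := z.im
  have hD0 : 0 < D := by linarith
  have l1 : ‖xi (z + h)‖ ≤ C * D * t ^ (5:ℝ) * S := by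
    refine p2.trans ?_
    calc C * sz (z + h) * ‖riemannZeta (z + h)‖ ≤ C * S * (D * t ^ (5:ℝ)) := by
          apply mul_le_mul (mul_le_mul_of_nonneg_left s1 hC.le) z1 (norm_nonneg _) (by positivity)
      _ = _ := by ring
  have l2 : ‖xi (z - h)‖ ≤ C * D * t ^ (5:ℝ) * S := by
    refine p3.trans ?_
    calc C * sz (z - h) * ‖riemannZeta (z - h)‖ ≤ C * S * (D * t ^ (5:ℝ)) := by
          apply mul_le_mul (mul_le_mul_of_nonneg_left s2 hC.le) z2 (norm_nonneg _) (by positivity)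
      _ = _ := by ring
  unfold FF
  calc ‖a * xi (z + h) + b * xi (z - h)‖ ≤ ‖a‖ * ‖xi (z + h)‖ + ‖b‖ * ‖xi (z - h)‖ := by
        refine (norm_add_le _ _).trans ?_
        rw [norm_mul, norm_mul]
    _ ≤ ‖a‖ * (C * D * t ^ (5:ℝ) * S) + ‖b‖ * (C * D * t ^ (5:ℝ) * S) := by gcongr
    _ = ((‖a‖ + ‖b‖) * (C * D)) * (t ^ (5:ℝ) * S) := by ring
    _ ≤ t ^ (1:ℝ) * (t ^ (5:ℝ) * S) := mul_le_mul_of_nonneg_right k (by positivity)
    _ = t ^ (6:ℝ) * S := by
        rw [← mul_assoc, ← Real.rpow_add ht0]; norm_num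

/-- few zeros to the right give a bound -/
lemma ff_back {a : ℂ} (ha : a ≠ 0) (b : ℂ) {h : ℝ} (h0 : 0 < h) (h1 : h < 1 / 2)
    {δ : ℝ} (hδ : 0 < δ) (hδ1 : δ ≤ 1 / 10) {κ : ℝ} (hκ : 0 < κ) : ∃ θ : ℝ, 0 < θ ∧
    (FewU (FF a b h) (Ici (1 / 2 + δ)) 1 θ → ∃ T₀ : ℝ, 2 ≤ T₀ ∧ ∀ T : ℝ, T₀ ≤ T → ∀ x : ℝ,
      1 / 2 + 2 * δ ≤ x → x ≤ 2 → ‖FF a b h ⟨x, T⟩‖ ≤ T ^ κ * sF h ⟨x, T⟩) := by
  obtain ⟨c, C, T₂, hc0, hC0, hT2, hcen⟩ := ff_cen ha b h0 h1 4
  set R : ℝ := 3 / 2 - 3 * δ / 2 with hR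
  set B : ℝ := 1 + C * 16 + 1 / c with hB
  have hB1 : 1 ≤ B := by
    have : 0 ≤ C * 16 := by positivity
    have : 0 ≤ 1 / c := by positivity
    linarith
  obtain ⟨θ, hθ, L₀, hBL⟩ := gbacklund (R := R) (δ := δ / 4) (r := 1 / 4) (A := 7) (B := B)
    (by positivity) (by linarith) (by norm_num) (by linarith) (by norm_num) hB1 hκ
  obtain ⟨c', hc', hcov⟩ := FewU.cover (f := FF a b h) (E := Ici (1 / 2 + δ)) one_pos (3 / 2)
  refine ⟨θ / c', by positivity, fun hfew => ?_⟩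
  have hcov' := hcov _ (by positivity) hfew
  rw [mul_div_cancel₀ _ hc'.ne'] at hcov'
  obtain ⟨T₃, hT3⟩ := hcov'
  obtain ⟨T₁, hT1, hG⟩ := ff_crude a b h0 h1
  obtain ⟨T₄, hT41, hT4⟩ := absorb (16 * 2 ^ (6:ℝ)) (ε := 1) one_pos
  have p3 := abs_nonneg T₃
  have pL := Real.exp_pos |L₀|
  refine ⟨T₁ + T₂ + |T₃| + T₄ + Real.exp |L₀| + 10, by linarith, fun T hT x hx1 hx2 => ?_⟩
  have hT0 : 0 < T := by linarith
  have hl1 : 1 ≤ Real.log T := by
    rw [Real.le_log_iff_exp_le hT0]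
    have := Real.exp_one_lt_d9
    linarith
  have hL0 : L₀ ≤ Real.log T := (le_abs_self L₀).trans
    ((Real.le_log_iff_exp_le hT0).2 (by linarith))
  have f3' := hT3 T (by linarith [le_abs_self T₃])
  set L := Real.log T with hL
  have hexp : ∀ p : ℝ, Real.exp (p * L) = T ^ p := fun p => by
    rw [Real.rpow_def_of_pos hT0, mul_comm]
  set f : ℂ → ℂ := fun z => FF a b h z * tx h L z with hf
  set c₀ : ℂ := ⟨2, T⟩ with hc₀
  have hball : ∀ (ρ : ℝ) (z : ℂ), z ∈ closedBall c₀ ρ → 2 - ρ ≤ z.re ∧ z.re ≤ 2 + ρ ∧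
      T - ρ ≤ z.im ∧ z.im ≤ T + ρ := by
    intro ρ z hz
    rw [mem_closedBall, dist_eq_norm] at hz
    have g1 := abs_le.1 ((Complex.abs_re_le_norm (z - c₀)).trans hz)
    have g2 := abs_le.1 ((Complex.abs_im_le_norm (z - c₀)).trans hz)
    rw [Complex.sub_re] at g1
    rw [Complex.sub_im] at g2
    simp only [hc₀] at g1 g2
    refine ⟨by linarith, by linarith, by linarith, by linarith⟩
  have key := hBL L hL0 (by linarith) f c₀ (by
    intro z hz
    exact (ff_an a b h z).mul (tx_an h L z)) (by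
    intro z hz
    obtain ⟨g1, g2, g3, g4⟩ := hball R z hz
    have g5 := hG z (by linarith) (by linarith) (by linarith)
    have hz0 : 0 < z.im := by linarith
    have g6 := sF_tx_le hT0 h0 h1 hz0 (by linarith) (by linarith) (by linarith)
    rw [← hL] at g6
    rw [hexp]
    simp only [hf]
    rw [norm_mul]
    calc ‖FF a b h z‖ * ‖tx h L z‖ ≤ (z.im ^ (6:ℝ) * sF h z) * ‖tx h L z‖ :=
          mul_le_mul_of_nonneg_right g5 (norm_nonneg _)
      _ = z.im ^ (6:ℝ) * (sF h z * ‖tx h L z‖) := by ring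
      _ ≤ (2 * T) ^ (6:ℝ) * 16 := by
          apply mul_le_mul _ g6 (mul_nonneg (sF_pos hz0).le (norm_nonneg _)) (by positivity)
          exact Real.rpow_le_rpow hz0.le (by linarith) (by positivity)
      _ = (16 * 2 ^ (6:ℝ)) * T ^ (6:ℝ) := by
          rw [Real.mul_rpow (by norm_num) hT0.le]; ring
      _ ≤ T ^ (1:ℝ) * T ^ (6:ℝ) := mul_le_mul_of_nonneg_right (hT4 T (by linarith)) (by positivity)
      _ = T ^ (7:ℝ) := by rw [← Real.rpow_add hT0]; norm_num) (by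
    intro z hz
    obtain ⟨g1, g2, g3, g4⟩ := hball (1 / 4) z hz
    have g5 := (hcen z (by linarith) (by push_cast; linarith) (by linarith)).2
    have hz0 : 0 < z.im := by linarith
    have g6 := sF_tx_le hT0 h0 h1 hz0 (by linarith) (by linarith) (by linarith)
    rw [← hL] at g6
    simp only [hf]
    rw [norm_mul]
    calc ‖FF a b h z‖ * ‖tx h L z‖ ≤ (C * sF h z) * ‖tx h L z‖ :=
          mul_le_mul_of_nonneg_right g5 (norm_nonneg _)
      _ = C * (sF h z * ‖tx h L z‖) := by ring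
      _ ≤ C * 16 := mul_le_mul_of_nonneg_left g6 hC0.le
      _ ≤ B := by
          have : 0 ≤ 1 / c := by positivity
          rw [hB]; linarith) (by
    have g1 := (hcen c₀ (by simp only [hc₀]; norm_num) (by simp only [hc₀]; norm_num)
      (by simp only [hc₀]; linarith)).1
    have g2 := sF_tx_one hT0 (h := h) (z := c₀) rfl
    rw [← hL] at g2
    simp only [hf]
    rw [norm_mul]
    have g3 : 1 / B ≤ c := by
      rw [div_le_iff₀ (by linarith)]
      have g6 : 1 / c ≤ B := by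
        have : 0 ≤ C * 16 := by positivity
        rw [hB]; linarith
      rw [div_le_iff₀ hc0] at g6
      linarith
    calc 1 / B ≤ c * 1 := by rw [mul_one]; exact g3
      _ = (c * sF h c₀) * ‖tx h L c₀‖ := by rw [← g2]; ring
      _ ≤ _ := mul_le_mul_of_nonneg_right g1 (norm_nonneg _)) (by
    intro S hS
    refine le_trans (le_of_eq ?_) (f3' S fun z hz => ?_)
    · apply Finset.sum_congr rfl
      intro z hz
      rw [hf, mult_mul (ff_an a b h z) (tx_an h L z) (tx_ne h L z)]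
    · obtain ⟨g1, g2, g3, g4⟩ := hball _ z (hS z hz).1
      refine ⟨?_, ?_⟩
      · simp only [mem_Ici]; linarith
      · rw [abs_le]
        constructor <;> linarith)
  have g1 := key ⟨x, T⟩ (by
    rw [mem_closedBall, dist_eq_norm]
    refine (Complex.norm_le_abs_re_add_abs_im _).trans ?_
    rw [Complex.sub_re, Complex.sub_im]
    simp only [hc₀, sub_self, abs_zero, add_zero]
    rw [abs_le]
    constructor <;> linarith)
  rw [hexp] at g1
  simp only [hf] at g1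
  rw [norm_mul] at g1
  have g2 := sF_tx_one hT0 (h := h) (z := ⟨x, T⟩) rfl
  rw [← hL] at g2
  have hS0 : 0 < sF h ⟨x, T⟩ := sF_pos hT0
  calc ‖FF a b h ⟨x, T⟩‖ = (‖FF a b h ⟨x, T⟩‖ * ‖tx h L ⟨x, T⟩‖) * sF h ⟨x, T⟩ := by
        have : ‖FF a b h ⟨x, T⟩‖ * ‖tx h L ⟨x, T⟩‖ * sF h ⟨x, T⟩ =
          ‖FF a b h ⟨x, T⟩‖ * (sF h ⟨x, T⟩ * ‖tx h L ⟨x, T⟩‖) := by ring
        rw [this, g2, mul_one]
    _ ≤ _ := mul_le_mul_of_nonneg_right g1 hS0.le

end Pool.Agent.L7h13.XI
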